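import Mathlib

/-!
# Exceptional times of exclusion dynamics are exceptional times of ordinary dynamical percolation

For every countable index set `I`, every symmetric kernel `P` with `sup_x ∑_y P(x, y) < ∞` and every
Borel set `A` of configurations with probability `0`: if `A` has exceptional times under the exclusion
dynamics with kernel `P`, then `A` has exceptional times under ordinary dynamical percolation.

Proof.
1. Capacitability: a set hit by the exclusion dynamics with positive probability contains a compact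
   set `K` all of whose open neighbourhoods are hit with probability bounded below.
2. For a cylinder set `C` let `g` and `u` be the equilibrium potentials of `C` (with killing `lam`)
   for the exclusion dynamics and for ordinary dynamics in a large finite volume. The Dirichlet forms
   satisfy `E_exclusion ≤ 4 M E_ordinary`, so that `∑ g ≤ (1 + 4 M) ∑ u`.
3. The exclusion dynamics hits `C` before time `T` with probability at most
   `exp(lam (T + 1)) * (average of g)` up to an error (from the finite volume) that is controlled by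
   a bound on the discrete gradient of `g`; ordinary dynamics hits `C` before time `R + 1` with
   probability at least `(average of u) - 1 / (1 + lam (R + 1))`.
4. Passing from cylinder sets to `K`: almost surely no bit of ordinary dynamical percolation jumps at
   a time at which the left limit of the configuration is in the null set `K`.
-/

namespace Pool.Agent.Results.MP_20d613_pr.ExclusionVsOrdinary

section

open MeasureTheory Filter Topology

/-- The law of a family of independent fair bits. -/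
noncomputable def fairCoins (I : Type*) : Measure (I → Bool) :=
  Measure.infinitePi fun _ : I => (PMF.uniformOfFintype Bool).toMeasure

/-- Symmetric kernels `P : I × I → [0, ∞)` with `sup_x ∑_y P(x, y) < ∞`. -/
structure IsKernel {I : Type*} (P : I → I → ℝ) : Prop where
  nonneg : ∀ x y, 0 ≤ P x y
  symm : ∀ x y, P x y = P y x
  bound : ∃ M : ℝ, ∀ x, Summable (P x) ∧ ∑' y, P x y ≤ M

/-- `f` depends on finitely many bits only. -/
def IsLocal {I : Type*} (f : (I → Bool) → ℝ) : Prop :=
  ∃ Λ : Finset I, ∀ ω ω' : I → Bool, (∀ x ∈ Λ, ω x = ω' x) → f ω = f ω'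

/-- The configuration `ω` with the values at `x` and `y` exchanged. -/
def exchange {I : Type*} [DecidableEq I] (x y : I) (ω : I → Bool) : I → Bool :=
  fun v => ω (Equiv.swap x y v)

/-- The generator of the exclusion dynamics with kernel `P`:
`L f (ω) = ∑_{unordered pairs {x, y}} P(x, y) (f(ω^{x,y}) - f(ω))`,
where `ω^{x,y}` is `ω` with the values at `x` and `y` exchanged. -/
noncomputable def exclusionGen {I : Type*} [DecidableEq I] (P : I → I → ℝ)
    (f : (I → Bool) → ℝ) (ω : I → Bool) : ℝ :=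
  (1 / 2) * ∑' p : I × I, P p.1 p.2 * (f (exchange p.1 p.2 ω) - f ω)

/-- Right-continuous paths with left limits (in each coordinate). -/
def IsCadlag {I : Type*} (path : ℝ → I → Bool) : Prop :=
  ∀ x, (∀ t, 0 ≤ t → ∀ᶠ s in 𝓝[>] t, path s x = path t x) ∧
    (∀ t, 0 < t → ∃ b, ∀ᶠ s in 𝓝[<] t, path s x = b)

/-- The sigma-algebra generated by the process up to time `s`. -/
@[reducible] def past {I Ω : Type*} (X : ℝ → Ω → I → Bool) (s : ℝ) : MeasurableSpace Ω :=
  ⨆ r ∈ Set.Icc 0 s, MeasurableSpace.comap (X r) MeasurableSpace.pi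

/-- `X` is the exclusion dynamics with kernel `P`, started from fair coin flips: a cadlag process
which solves the martingale problem for the generator `exclusionGen P`, that is, for every local
function `f`, all times `s ≤ t` and every event `E` of the past up to time `s`,
`𝔼[f(X_t) ; E] - 𝔼[f(X_s) ; E] = ∫_s^t 𝔼[(L f)(X_r) ; E] dr`. -/
structure IsExclusionDynamics {I Ω : Type*} [DecidableEq I] [MeasurableSpace Ω]
    (P : I → I → ℝ) (μ : Measure Ω) (X : ℝ → Ω → I → Bool) : Prop where
  measurable : ∀ t, 0 ≤ t → Measurable (X t)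
  initial : μ.map (X 0) = fairCoins I
  cadlag : ∀ᵐ w ∂μ, IsCadlag fun t => X t w
  martingale : ∀ f : (I → Bool) → ℝ, IsLocal f → ∀ s t : ℝ, 0 ≤ s → s ≤ t →
    ∀ E : Set Ω, MeasurableSet[past X s] E →
      ∫ w in E, f (X t w) ∂μ - ∫ w in E, f (X s w) ∂μ =
        ∫ r in s..t, ∫ w in E, exclusionGen P f (X r w) ∂μ

/-- `η` is ordinary dynamical percolation: the bits evolve independently, each one starts from a
fair coin flip and is replaced by a fresh fair coin flip at rate one. The law is described through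
the finite-dimensional distributions: after time `t` a bit differs from its initial value with
probability `(1 - e^{-t}) / 2`. -/
structure IsDynamicalPercolation {I Ω : Type*} [MeasurableSpace Ω]
    (μ : Measure Ω) (η : ℝ → Ω → I → Bool) : Prop where
  measurable : ∀ t, 0 ≤ t → Measurable (η t)
  cadlag : ∀ᵐ w ∂μ, IsCadlag fun t => η t w
  fdd : ∀ (F : Finset I) (n : ℕ) (t : Fin (n + 1) → ℝ) (a : I → Fin (n + 1) → Bool),
    0 ≤ t 0 → Monotone t →
    μ {w | ∀ x ∈ F, ∀ i, η (t i) w x = a x i} =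
      ENNReal.ofReal (∏ x ∈ F, ((1 / 2) * ∏ i : Fin n,
        if a x i.castSucc = a x i.succ
          then (1 + Real.exp (-(t i.succ - t i.castSucc))) / 2
          else (1 - Real.exp (-(t i.succ - t i.castSucc))) / 2))

/-- The event `A` has exceptional times: with positive probability there is a time `t ≥ 0` at which
the configuration is in `A`. -/
def HasExceptionalTimes {I Ω : Type*} [MeasurableSpace Ω] (μ : Measure Ω)
    (X : ℝ → Ω → I → Bool) (A : Set (I → Bool)) : Prop :=
  0 < μ {w | ∃ t : ℝ, 0 ≤ t ∧ X t w ∈ A}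

end

section

open MeasureTheory Filter Topology Set

/-- A form of Choquet's capacitability theorem. -/
theorem exists_compact_of_capacity {𝒳 : Type*} [TopologicalSpace 𝒳] {A : Set 𝒳}
    (hA : AnalyticSet A) (c : Set 𝒳 → ENNReal) (hmono : ∀ B B', B ⊆ B' → c B ≤ c B')
    (hsup : ∀ B : ℕ → Set 𝒳, Monotone B → c (⋃ n, B n) = ⨆ n, c (B n)) {δ : ENNReal}
    (hδ : δ < c A) :
    ∃ K, K ⊆ A ∧ IsCompact K ∧ ∀ U, IsOpen U → K ⊆ U → δ < c U := by
  rw [AnalyticSet] at hA
  rcases hA with rfl | ⟨f, hf, rfl⟩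
  · exact ⟨∅, subset_rfl, isCompact_empty, fun U _ _ => lt_of_lt_of_le hδ (hmono _ _ (empty_subset _))⟩
  -- the sets `B s k`
  set B : (ℕ → ℕ) → ℕ → Set 𝒳 := fun s k => f '' {x | ∀ i < k, x i ≤ s i} with hB
  have hstep : ∀ (s : ℕ → ℕ) (k : ℕ), δ < c (B s k) →
      ∃ n, δ < c (B (Function.update s k n) (k + 1)) := by
    intro s k hs
    have hU : B s k = ⋃ n, B (Function.update s k n) (k + 1) := by
      ext y
      simp only [hB, mem_image, mem_iUnion, mem_ofPred_eq]
      constructor
      · rintro ⟨x, hx, rfl⟩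
        refine ⟨x k, x, ?_, rfl⟩
        intro i hi
        rcases Nat.lt_succ_iff_lt_or_eq.1 hi with h | h
        · rw [Function.update_of_ne h.ne]; exact hx i h
        · subst h; simp
      · rintro ⟨n, x, hx, rfl⟩
        refine ⟨x, ?_, rfl⟩
        intro i hi
        have := hx i (Nat.lt_succ_of_lt hi)
        rwa [Function.update_of_ne hi.ne] at this
    have hM : Monotone fun n => B (Function.update s k n) (k + 1) := by
      intro n m hnm
      apply image_mono
      intro x hx i hi
      refine (hx i hi).trans ?_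
      by_cases h : i = k
      · subst h; simpa using hnm
      · simp [h]
    rw [hU, hsup _ hM, lt_iSup_iff] at hs
    exact hs
  choose! nx hnx using hstep
  set S : ℕ → (ℕ → ℕ) := fun k => Nat.rec (fun _ => 0) (fun k s => Function.update s k (nx s k)) k
    with hS
  have hSsucc : ∀ k, S (k + 1) = Function.update (S k) k (nx (S k) k) := fun k => rfl
  have hSc : ∀ k, δ < c (B (S k) k) := by
    intro k
    induction k with
    | zero =>
      have : B (S 0) 0 = range f := by
        simp [hB]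
      rw [this]; exact hδ
    | succ k ih => rw [hSsucc]; exact hnx _ _ ih
  set s : ℕ → ℕ := fun i => S (i + 1) i with hs
  have hstab : ∀ k i, i < k → S k i = s i := by
    intro k
    induction k with
    | zero => intro i hi; omega
    | succ k ih =>
      intro i hi
      rcases Nat.lt_succ_iff_lt_or_eq.1 hi with h | h
      · rw [hSsucc, Function.update_of_ne h.ne]; exact ih i h
      · subst h; rfl
  have hBs : ∀ k, δ < c (B s k) := by
    intro k
    have : B s k = B (S k) k := by
      simp only [hB]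
      congr 1
      ext x
      simp only [mem_ofPred_eq]
      exact forall₂_congr fun i hi => by rw [hstab k i hi]
    rw [this]; exact hSc k
  set Z : Set (ℕ → ℕ) := {x | ∀ i, x i ≤ s i} with hZ
  have hZc : IsCompact Z := by
    have : Z = Set.pi univ fun i => Set.Iic (s i) := by
      ext x; simp [hZ, Pi.le_def]
    rw [this]
    exact isCompact_univ_pi fun i => (Set.finite_Iic (s i)).isCompact
  refine ⟨f '' Z, image_subset_range _ _, hZc.image hf, ?_⟩
  intro U hU hKU
  by_contra hcon
  have hex : ∀ k, ∃ x, (∀ i < k, x i ≤ s i) ∧ f x ∉ U := by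
    intro k
    by_contra hno
    push Not at hno
    apply hcon
    refine lt_of_lt_of_le (hBs k) (hmono _ _ ?_)
    rintro y ⟨x, hx, rfl⟩
    exact hno x hx
  choose x hx hxU using hex
  -- truncate
  set y : ℕ → (ℕ → ℕ) := fun k i => min (x k i) (s i) with hy
  have hyZ : ∀ k, y k ∈ Z := fun k i => min_le_right _ _
  obtain ⟨w, hwZ, φ, hφ, hlim⟩ := hZc.tendsto_subseq hyZ
  have hlim2 : Tendsto (fun n => x (φ n)) atTop (𝓝 w) := by
    rw [tendsto_pi_nhds] at hlim ⊢
    intro i
    refine (hlim i).congr' ?_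
    filter_upwards [eventually_gt_atTop i] with n hn
    have : i < φ n := lt_of_lt_of_le hn (hφ.id_le n)
    simp only [Function.comp_apply, hy]
    exact min_eq_left (hx (φ n) i this)
  have h1 : f w ∈ U := hKU ⟨w, hwZ, rfl⟩
  have h2 : Tendsto (fun n => f (x (φ n))) atTop (𝓝 (f w)) := (hf.tendsto w).comp hlim2
  obtain ⟨n, hn⟩ := (h2.eventually (hU.mem_nhds h1)).exists
  exact hxU _ hn

end

section

open Finset

section Finite

variable {S K : Type*} [Fintype S] [Fintype K]

/-- finite generator: at rate `c k` apply `τ k` -/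
def gen (c : K → ℝ) (τ : K → S → S) (f : S → ℝ) (a : S) : ℝ :=
  ∑ k, c k * (f (τ k a) - f a)

/-- energy -/
noncomputable def energy (c : K → ℝ) (τ : K → S → S) (f : S → ℝ) : ℝ :=
  (1 / 2) * ∑ k, c k * ∑ a, (f (τ k a) - f a) ^ 2

/-- energy with killing -/
noncomputable def energyL (lam : ℝ) (c : K → ℝ) (τ : K → S → S) (f : S → ℝ) : ℝ :=
  lam * ∑ a, f a ^ 2 + energy c τ f

variable (c : K → ℝ) (τ : K → S → S) (hτ : ∀ k a, τ k (τ k a) = a)

include hτ in
lemma sum_comp_tau (k : K) (f : S → ℝ) : ∑ a, f (τ k a) = ∑ a, f a := by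
  exact Equiv.sum_comp (Function.Involutive.toPerm (τ k) (hτ k)) f

include hτ in
lemma sum_gen_mul (f g : S → ℝ) :
    ∑ a, gen c τ f a * g a = - ((1 / 2) * ∑ k, c k * ∑ a, (f (τ k a) - f a) * (g (τ k a) - g a)) := by
  unfold gen
  simp_rw [Finset.sum_mul]
  rw [Finset.sum_comm, Finset.mul_sum, ← Finset.sum_neg_distrib]
  apply Finset.sum_congr rfl
  intro k _
  have h1 : ∑ a, c k * (f (τ k a) - f a) * g a = c k * ∑ a, (f (τ k a) - f a) * g a := by
    rw [Finset.mul_sum]; exact Finset.sum_congr rfl fun a _ => by ring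
  have h2 : ∑ a, (f (τ k a) - f a) * g (τ k a) = - ∑ a, (f (τ k a) - f a) * g a := by
    have := sum_comp_tau τ hτ k (fun a => (f (τ k a) - f a) * g (τ k a))
    simp only [hτ] at this
    rw [← this, ← Finset.sum_neg_distrib]
    exact Finset.sum_congr rfl fun a _ => by ring
  have h3 : ∑ a, (f (τ k a) - f a) * (g (τ k a) - g a)
      = -2 * ∑ a, (f (τ k a) - f a) * g a := by
    simp_rw [mul_sub]
    rw [Finset.sum_sub_distrib, h2]; ring
  rw [h1, h3]; ring

include hτ in
lemma sum_gen_eq_zero (f : S → ℝ) : ∑ a, gen c τ f a = 0 := by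
  have := sum_gen_mul c τ hτ f (fun _ => 1)
  simpa using this

include hτ in
lemma sum_gen_self (f : S → ℝ) : ∑ a, gen c τ f a * f a = - energy c τ f := by
  rw [sum_gen_mul c τ hτ, energy]
  congr 2
  apply Finset.sum_congr rfl
  intro k _
  congr 1
  exact Finset.sum_congr rfl fun a _ => by ring

include hτ in
lemma sum_gen_symm (f g : S → ℝ) : ∑ a, gen c τ f a * g a = ∑ a, gen c τ g a * f a := by
  rw [sum_gen_mul c τ hτ, sum_gen_mul c τ hτ]
  congr 2
  apply Finset.sum_congr rfl
  intro k _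
  congr 1
  exact Finset.sum_congr rfl fun a _ => by ring

variable (hc : ∀ k, 0 ≤ c k)

include hc in
lemma energy_nonneg (f : S → ℝ) : 0 ≤ energy c τ f := by
  unfold energy
  have : 0 ≤ ∑ k, c k * ∑ a, (f (τ k a) - f a) ^ 2 :=
    Finset.sum_nonneg fun k _ => mul_nonneg (hc k) (Finset.sum_nonneg fun a _ => sq_nonneg _)
  linarith

/-- `g` is the `lam`-equilibrium potential of `C`. -/
structure IsPotential (lam : ℝ) (C : S → Prop) (g : S → ℝ) : Prop where
  one : ∀ a, C a → g a = 1
  harm : ∀ a, ¬ C a → gen c τ g a = lam * g a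
  nonneg : ∀ a, 0 ≤ g a
  le_one : ∀ a, g a ≤ 1

/-- generator as a linear map -/
def genLin (c : K → ℝ) (τ : K → S → S) : (S → ℝ) →ₗ[ℝ] (S → ℝ) where
  toFun := gen c τ
  map_add' f g := by
    funext a
    simp only [gen, Pi.add_apply]
    rw [← Finset.sum_add_distrib]
    exact Finset.sum_congr rfl fun k _ => by ring
  map_smul' r f := by
    funext a
    simp only [gen, Pi.smul_apply, smul_eq_mul, RingHom.id_apply]
    rw [Finset.mul_sum]
    exact Finset.sum_congr rfl fun k _ => by ring

include hτ hc in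
open Classical in
theorem exists_potential {lam : ℝ} (hlam : 0 < lam) (C : S → Prop) :
    ∃ g, IsPotential c τ lam C g := by
  classical
  let T : (S → ℝ) →ₗ[ℝ] (S → ℝ) :=
    { toFun := fun f a => if C a then f a else lam * f a - gen c τ f a
      map_add' := fun f g => by
        funext a
        have := congrFun ((genLin c τ).map_add f g) a
        simp only [genLin, LinearMap.coe_mk, AddHom.coe_mk, Pi.add_apply] at this
        by_cases h : C a
        · simp [h]
        · simp only [h, if_false, Pi.add_apply, this]; ring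
      map_smul' := fun r f => by
        funext a
        have := congrFun ((genLin c τ).map_smul r f) a
        simp only [genLin, LinearMap.coe_mk, AddHom.coe_mk, Pi.smul_apply, smul_eq_mul] at this
        by_cases h : C a
        · simp [h]
        · simp only [h, if_false, Pi.smul_apply, smul_eq_mul, RingHom.id_apply, this]; ring }
  have hinj : Function.Injective T := by
    rw [injective_iff_map_eq_zero]
    intro f hf
    have h1 : ∀ a, C a → f a = 0 := by
      intro a ha
      have := congrFun hf a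
      simpa [T, ha] using this
    have h2 : ∀ a, ¬ C a → gen c τ f a = lam * f a := by
      intro a ha
      have := congrFun hf a
      simp only [T, LinearMap.coe_mk, AddHom.coe_mk, ha, if_false, Pi.zero_apply] at this
      linarith
    have h3 : ∑ a, gen c τ f a * f a = lam * ∑ a, f a ^ 2 := by
      rw [Finset.mul_sum]
      apply Finset.sum_congr rfl
      intro a _
      by_cases h : C a
      · simp [h1 a h]
      · rw [h2 a h]; ring
    rw [sum_gen_self c τ hτ] at h3
    have h4 := energy_nonneg c τ hc f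
    have h5 : ∑ a, f a ^ 2 = 0 := by
      have h6 : 0 ≤ ∑ a, f a ^ 2 := Finset.sum_nonneg fun a _ => sq_nonneg _
      nlinarith
    funext a
    have := (Finset.sum_eq_zero_iff_of_nonneg (fun a _ => sq_nonneg (f a))).1 h5 a
      (Finset.mem_univ a)
    exact pow_eq_zero_iff (two_ne_zero) |>.1 this
  have hsurj : Function.Surjective T := LinearMap.injective_iff_surjective.1 hinj
  obtain ⟨g, hg⟩ := hsurj (fun a => if C a then 1 else 0)
  have hg1 : ∀ a, C a → g a = 1 := by
    intro a ha
    have := congrFun hg a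
    simpa [T, ha] using this
  have hg2 : ∀ a, ¬ C a → gen c τ g a = lam * g a := by
    intro a ha
    have := congrFun hg a
    simp only [T, LinearMap.coe_mk, AddHom.coe_mk, ha, if_false] at this
    linarith
  refine ⟨g, hg1, hg2, ?_, ?_⟩
  · intro a
    by_contra hneg
    push Not at hneg
    obtain ⟨b, _, hb⟩ := Finset.exists_min_image (Finset.univ : Finset S) g ⟨a, Finset.mem_univ a⟩
    have hbneg : g b < 0 := (hb a (Finset.mem_univ a)).trans_lt hneg
    have hbC : ¬ C b := fun h => by rw [hg1 b h] at hbneg; linarith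
    have h1 := hg2 b hbC
    have h2 : 0 ≤ gen c τ g b := by
      unfold gen
      exact Finset.sum_nonneg fun k _ => mul_nonneg (hc k)
        (sub_nonneg.2 (hb _ (Finset.mem_univ _)))
    nlinarith
  · intro a
    by_contra hneg
    push Not at hneg
    obtain ⟨b, _, hb⟩ := Finset.exists_max_image (Finset.univ : Finset S) g ⟨a, Finset.mem_univ a⟩
    have hbneg : 1 < g b := hneg.trans_le (hb a (Finset.mem_univ a))
    have hbC : ¬ C b := fun h => by rw [hg1 b h] at hbneg; linarith
    have h1 := hg2 b hbC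
    have h2 : gen c τ g b ≤ 0 := by
      unfold gen
      exact Finset.sum_nonpos fun k _ => mul_nonpos_of_nonneg_of_nonpos (hc k)
        (sub_nonpos.2 (hb _ (Finset.mem_univ _)))
    nlinarith

variable {c τ}

include hτ in
lemma IsPotential.test {lam : ℝ} {C : S → Prop} {g : S → ℝ} (hg : IsPotential c τ lam C g)
    {f : S → ℝ} (hf : ∀ a, C a → f a = 1) :
    lam * ∑ a, g a * f a - ∑ a, gen c τ g a * f a = lam * ∑ a, g a := by
  have h1 : lam * ∑ a, g a * f a - ∑ a, gen c τ g a * f a
      = ∑ a, (lam * g a - gen c τ g a) * f a := by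
    rw [Finset.mul_sum, ← Finset.sum_sub_distrib]
    exact Finset.sum_congr rfl fun a _ => by ring
  have h2 : ∑ a, (lam * g a - gen c τ g a) * f a = ∑ a, (lam * g a - gen c τ g a) := by
    apply Finset.sum_congr rfl
    intro a _
    by_cases h : C a
    · rw [hf a h, mul_one]
    · rw [hg.harm a h]; ring
  rw [h1, h2, Finset.sum_sub_distrib, sum_gen_eq_zero c τ hτ, Finset.mul_sum, sub_zero]

include hτ hc in
/-- variational characterisation -/
theorem IsPotential.le_energy {lam : ℝ} (hlam : 0 < lam) {C : S → Prop} {g : S → ℝ}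
    (hg : IsPotential c τ lam C g) {f : S → ℝ} (hf : ∀ a, C a → f a = 1) :
    lam * ∑ a, g a ≤ energyL lam c τ f := by
  have h1 := hg.test hτ hf
  have h2 := hg.test hτ hg.one
  have h3 : 0 ≤ energyL lam c τ (fun a => f a - g a) := by
    unfold energyL
    have := energy_nonneg c τ hc (fun a => f a - g a)
    have h4 : 0 ≤ ∑ a, (f a - g a) ^ 2 := Finset.sum_nonneg fun a _ => sq_nonneg _
    nlinarith
  have h5 : energyL lam c τ (fun a => f a - g a) = energyL lam c τ f
      - 2 * (lam * ∑ a, g a * f a - ∑ a, gen c τ g a * f a)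
      + (lam * ∑ a, g a * g a - ∑ a, gen c τ g a * g a) := by
    unfold energyL
    have e1 : ∑ a, (f a - g a) ^ 2 = ∑ a, f a ^ 2 - 2 * ∑ a, g a * f a + ∑ a, g a * g a := by
      rw [Finset.mul_sum, ← Finset.sum_sub_distrib, ← Finset.sum_add_distrib]
      exact Finset.sum_congr rfl fun a _ => by ring
    have e2 : energy c τ (fun a => f a - g a) = energy c τ f
        + 2 * ∑ a, gen c τ g a * f a - ∑ a, gen c τ g a * g a := by
      rw [sum_gen_mul c τ hτ, sum_gen_mul c τ hτ]
      unfold energy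
      have e3 : ∀ k, c k * ∑ a, ((f (τ k a) - g (τ k a)) - (f a - g a)) ^ 2
          = c k * ∑ a, (f (τ k a) - f a) ^ 2
            - 2 * (c k * ∑ a, (g (τ k a) - g a) * (f (τ k a) - f a))
            + c k * ∑ a, (g (τ k a) - g a) * (g (τ k a) - g a) := by
        intro k
        have e4 : ∑ a, ((f (τ k a) - g (τ k a)) - (f a - g a)) ^ 2
            = ∑ a, (f (τ k a) - f a) ^ 2
            - 2 * ∑ a, (g (τ k a) - g a) * (f (τ k a) - f a)
            + ∑ a, (g (τ k a) - g a) * (g (τ k a) - g a) := by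
          rw [Finset.mul_sum, ← Finset.sum_sub_distrib, ← Finset.sum_add_distrib]
          exact Finset.sum_congr rfl fun a _ => by ring
        rw [e4]; ring
      rw [Finset.sum_congr rfl fun k _ => e3 k, Finset.sum_add_distrib, Finset.sum_sub_distrib,
        ← Finset.mul_sum]
      ring
    rw [e1, e2]; ring
  rw [h5, h1, h2] at h3
  linarith

include hτ in
theorem IsPotential.eq_energy {lam : ℝ} {C : S → Prop} {g : S → ℝ}
    (hg : IsPotential c τ lam C g) : lam * ∑ a, g a = energyL lam c τ g := by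
  have h2 := hg.test hτ hg.one
  rw [← h2, sum_gen_self c τ hτ]
  unfold energyL
  have : ∑ a, g a * g a = ∑ a, g a ^ 2 := Finset.sum_congr rfl fun a _ => by ring
  rw [this]; ring

end Finite

end

section

open Finset

section
variable {V : Type*} [Fintype V] [DecidableEq V]

/-- flip one coordinate -/
def flipAt {V : Type*} [DecidableEq V] (x : V) (a : V → Bool) : V → Bool :=
  Function.update a x (!a x)

/-- exchange two coordinates -/
def exch {V : Type*} [DecidableEq V] (p : V × V) (a : V → Bool) : V → Bool :=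
  fun v => a (Equiv.swap p.1 p.2 v)

omit [Fintype V] in
lemma flipAt_flipAt (x : V) (a : V → Bool) : flipAt x (flipAt x a) = a := by
  unfold flipAt; simp

omit [Fintype V] in
lemma exch_exch (p : V × V) (a : V → Bool) : exch p (exch p a) = a := by
  unfold exch; simp

omit [Fintype V] in
lemma exch_eq_self {p : V × V} {a : V → Bool} (h : a p.1 = a p.2) : exch p a = a := by
  funext v
  unfold exch
  by_cases h1 : v = p.1
  · subst h1; rw [Equiv.swap_apply_left, h]
  · by_cases h2 : v = p.2
    · subst h2; rw [Equiv.swap_apply_right, h]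
    · rw [Equiv.swap_apply_of_ne_of_ne h1 h2]

omit [Fintype V] in
lemma exch_eq_flip {p : V × V} {a : V → Bool} (h : a p.1 ≠ a p.2) :
    exch p a = flipAt p.1 (flipAt p.2 a) := by
  have hne : p.1 ≠ p.2 := fun h' => h (by rw [h'])
  have h3 : a p.2 = !a p.1 := by
    revert h; cases a p.1 <;> cases a p.2 <;> simp
  funext v
  unfold exch flipAt
  by_cases h1 : v = p.1
  · subst h1
    rw [Equiv.swap_apply_left, Function.update_self, Function.update_of_ne hne, h3]
  · by_cases h2 : v = p.2
    · subst h2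
      rw [Equiv.swap_apply_right, Function.update_of_ne hne.symm, Function.update_self, h3,
        Bool.not_not]
    · rw [Equiv.swap_apply_of_ne_of_ne h1 h2, Function.update_of_ne h1, Function.update_of_ne h2]

/-- squared norm of the discrete gradient -/
def gradSq (f : (V → Bool) → ℝ) (x : V) : ℝ := ∑ a, (f (flipAt x a) - f a) ^ 2

lemma gradSq_nonneg (f : (V → Bool) → ℝ) (x : V) : 0 ≤ gradSq f x :=
  Finset.sum_nonneg fun _ _ => sq_nonneg _

lemma exch_sq_le (f : (V → Bool) → ℝ) (p : V × V) :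
    ∑ a, (f (exch p a) - f a) ^ 2 ≤ 2 * gradSq f p.1 + 2 * gradSq f p.2 := by
  have h1 : ∀ a : V → Bool, (f (exch p a) - f a) ^ 2 ≤
      2 * (f (flipAt p.1 (flipAt p.2 a)) - f (flipAt p.2 a)) ^ 2
        + 2 * (f (flipAt p.2 a) - f a) ^ 2 := by
    intro a
    by_cases h : a p.1 = a p.2
    · rw [exch_eq_self h]
      have := sq_nonneg (f (flipAt p.1 (flipAt p.2 a)) - f (flipAt p.2 a))
      have := sq_nonneg (f (flipAt p.2 a) - f a)
      nlinarith
    · rw [exch_eq_flip h]
      nlinarith [sq_nonneg ((f (flipAt p.1 (flipAt p.2 a)) - f (flipAt p.2 a))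
        - (f (flipAt p.2 a) - f a))]
  refine (Finset.sum_le_sum fun a _ => h1 a).trans ?_
  rw [Finset.sum_add_distrib, ← Finset.mul_sum, ← Finset.mul_sum]
  have h2 : ∑ a : V → Bool, (f (flipAt p.1 (flipAt p.2 a)) - f (flipAt p.2 a)) ^ 2
      = gradSq f p.1 :=
    sum_comp_tau (fun (x : V) a => flipAt x a) flipAt_flipAt p.2
      (fun a => (f (flipAt p.1 a) - f a) ^ 2)
  rw [h2]
  rfl

/-- rates of the exclusion generator -/
noncomputable def rateE (P : V → V → ℝ) (p : V × V) : ℝ := P p.1 p.2 / 2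

/-- rates of the independent generator -/
noncomputable def rateO (_ : V) : ℝ := 1 / 2

theorem energy_compare (P : V → V → ℝ) (hP0 : ∀ x y, 0 ≤ P x y) (hPs : ∀ x y, P x y = P y x)
    {M : ℝ} (hM : ∀ x, ∑ y, P x y ≤ M) (f : (V → Bool) → ℝ) :
    energy (rateE P) exch f ≤ 4 * M * energy (rateO (V := V)) flipAt f := by
  unfold energy rateE rateO
  have h1 : ∑ p : V × V, P p.1 p.2 / 2 * ∑ a, (f (exch p a) - f a) ^ 2
      ≤ ∑ p : V × V, (P p.1 p.2 * gradSq f p.1 + P p.1 p.2 * gradSq f p.2) := by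
    apply Finset.sum_le_sum
    intro p _
    have := exch_sq_le f p
    have h0 := hP0 p.1 p.2
    nlinarith
  have h2 : ∑ p : V × V, (P p.1 p.2 * gradSq f p.1 + P p.1 p.2 * gradSq f p.2)
      ≤ 2 * (M * ∑ x, gradSq f x) := by
    rw [Finset.sum_add_distrib]
    have e1 : ∑ p : V × V, P p.1 p.2 * gradSq f p.1 ≤ M * ∑ x, gradSq f x := by
      rw [Fintype.sum_prod_type, Finset.mul_sum]
      apply Finset.sum_le_sum
      intro x _
      simp only
      rw [← Finset.sum_mul]
      exact mul_le_mul_of_nonneg_right (hM x) (gradSq_nonneg f x)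
    have e2 : ∑ p : V × V, P p.1 p.2 * gradSq f p.2 ≤ M * ∑ x, gradSq f x := by
      rw [Fintype.sum_prod_type_right, Finset.mul_sum]
      apply Finset.sum_le_sum
      intro x _
      simp only
      rw [← Finset.sum_mul]
      refine mul_le_mul_of_nonneg_right ?_ (gradSq_nonneg f x)
      calc ∑ i, P i x = ∑ i, P x i := Finset.sum_congr rfl fun i _ => hPs i x
        _ ≤ M := hM x
    linarith
  have h3 : ∑ x : V, (1 / 2 : ℝ) * ∑ a, (f (flipAt x a) - f a) ^ 2
      = (1 / 2) * ∑ x, gradSq f x := by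
    rw [Finset.mul_sum]; rfl
  rw [h3]
  nlinarith

theorem energyL_compare (P : V → V → ℝ) (hP0 : ∀ x y, 0 ≤ P x y) (hPs : ∀ x y, P x y = P y x)
    {M : ℝ} (hM0 : 0 ≤ M) (hM : ∀ x, ∑ y, P x y ≤ M) {lam : ℝ} (hlam : 0 ≤ lam)
    (f : (V → Bool) → ℝ) :
    energyL lam (rateE P) exch f ≤ (1 + 4 * M) * energyL lam (rateO (V := V)) flipAt f := by
  unfold energyL
  have h1 := energy_compare P hP0 hPs hM f
  have h2 := energy_nonneg (rateO (V := V)) flipAt (fun _ => by unfold rateO; norm_num) f
  have h3 : 0 ≤ lam * ∑ a, f a ^ 2 :=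
    mul_nonneg hlam (Finset.sum_nonneg fun _ _ => sq_nonneg _)
  nlinarith

/-- comparison of equilibrium potentials -/
theorem potential_compare (P : V → V → ℝ) (hP0 : ∀ x y, 0 ≤ P x y) (hPs : ∀ x y, P x y = P y x)
    {M : ℝ} (hM0 : 0 ≤ M) (hM : ∀ x, ∑ y, P x y ≤ M) {lam : ℝ} (hlam : 0 < lam)
    {C : (V → Bool) → Prop} {g u : (V → Bool) → ℝ}
    (hg : IsPotential (rateE P) exch lam C g)
    (hu : IsPotential (rateO (V := V)) flipAt lam C u) :
    ∑ a, g a ≤ (1 + 4 * M) * ∑ a, u a := by
  have h1 := hg.le_energy exch_exch (fun p => by unfold rateE; have := hP0 p.1 p.2; linarith)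
    hlam hu.one
  have h2 := energyL_compare P hP0 hPs hM0 hM hlam.le u
  have h3 := hu.eq_energy flipAt_flipAt
  have h4 : lam * ∑ a, g a ≤ lam * ((1 + 4 * M) * ∑ a, u a) := by
    calc lam * ∑ a, g a ≤ _ := h1
      _ ≤ _ := h2
      _ = _ := by rw [← h3]; ring
  exact le_of_mul_le_mul_left h4 hlam

end

end

section

open Finset

section
variable {V : Type*} [Fintype V] [DecidableEq V]

omit [Fintype V] in
lemma exch_flipAt (p : V × V) (x : V) (a : V → Bool) :
    exch p (flipAt x a) = flipAt (Equiv.swap p.1 p.2 x) (exch p a) := by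
  funext v
  unfold exch flipAt
  by_cases h : Equiv.swap p.1 p.2 v = x
  · have h' : v = Equiv.swap p.1 p.2 x := by rw [← h, Equiv.swap_apply_self]
    rw [h, Function.update_self, h', Function.update_self]
    show (!a x) = !(a (Equiv.swap p.1 p.2 (Equiv.swap p.1 p.2 x)))
    rw [Equiv.swap_apply_self]
  · have h' : v ≠ Equiv.swap p.1 p.2 x := fun h' => h (by rw [h', Equiv.swap_apply_self])
    rw [Function.update_of_ne h, Function.update_of_ne h']

lemma swap_H_le (H : V → ℝ) (hH : ∀ x, 0 ≤ H x) (p : V × V) (x : V) :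
    H (Equiv.swap p.1 p.2 x) ≤ H x + (if p.1 = x then H p.2 else 0)
      + (if p.2 = x then H p.1 else 0) := by
  by_cases h1 : p.1 = x
  · subst h1
    rw [Equiv.swap_apply_left, if_pos rfl]
    have := hH p.1
    split_ifs <;> linarith
  · by_cases h2 : p.2 = x
    · subst h2
      rw [Equiv.swap_apply_right, if_neg h1, if_pos rfl]
      have := hH p.2
      linarith
    · rw [Equiv.swap_apply_of_ne_of_ne (Ne.symm h1) (Ne.symm h2), if_neg h1, if_neg h2]
      linarith

lemma sum_swap_H_le (P : V → V → ℝ) (hP0 : ∀ x y, 0 ≤ P x y) (hPs : ∀ x y, P x y = P y x)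
    (H : V → ℝ) (hH : ∀ x, 0 ≤ H x) (x : V) :
    ∑ p : V × V, rateE P p * H (Equiv.swap p.1 p.2 x)
      ≤ (∑ p, rateE P p) * H x + ∑ y, P x y * H y := by
  have h1 : ∑ p : V × V, rateE P p * H (Equiv.swap p.1 p.2 x) ≤
      ∑ p : V × V, (rateE P p * H x + rateE P p * (if p.1 = x then H p.2 else 0)
        + rateE P p * (if p.2 = x then H p.1 else 0)) := by
    apply Finset.sum_le_sum
    intro p _
    have h0 : 0 ≤ rateE P p := by unfold rateE; have := hP0 p.1 p.2; linarith
    have := mul_le_mul_of_nonneg_left (swap_H_le H hH p x) h0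
    calc _ ≤ _ := this
      _ = _ := by ring
  refine h1.trans (le_of_eq ?_)
  rw [Finset.sum_add_distrib, Finset.sum_add_distrib, ← Finset.sum_mul]
  have e1 : ∑ p : V × V, rateE P p * (if p.1 = x then H p.2 else 0)
      = (1 / 2) * ∑ y, P x y * H y := by
    rw [Fintype.sum_prod_type, Finset.sum_eq_single x, Finset.mul_sum]
    · apply Finset.sum_congr rfl
      intro y _
      simp only [if_true, rateE]; ring
    · intro b _ hb
      apply Finset.sum_eq_zero
      intro y _
      simp [hb]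
    · intro h; exact absurd (Finset.mem_univ x) h
  have e2 : ∑ p : V × V, rateE P p * (if p.2 = x then H p.1 else 0)
      = (1 / 2) * ∑ y, P x y * H y := by
    rw [Fintype.sum_prod_type_right, Finset.sum_eq_single x, Finset.mul_sum]
    · apply Finset.sum_congr rfl
      intro y _
      simp only [if_true, rateE]
      rw [hPs y x]; ring
    · intro b _ hb
      apply Finset.sum_eq_zero
      intro y _
      simp [hb]
    · intro h; exact absurd (Finset.mem_univ x) h
  rw [e1, e2]; ring

theorem grad_le (P : V → V → ℝ) (hP0 : ∀ x y, 0 ≤ P x y) (hPs : ∀ x y, P x y = P y x)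
    {lam : ℝ} (hlam : 0 < lam) {C : (V → Bool) → Prop} {g : (V → Bool) → ℝ}
    (hg : IsPotential (rateE P) exch lam C g) (L0 : V → Prop)
    (hC : ∀ x, ¬ L0 x → ∀ a, C (flipAt x a) ↔ C a)
    (H : V → ℝ) (hH : ∀ x, 0 ≤ H x) (hH1 : ∀ x, L0 x → 1 ≤ H x)
    (hHs : ∀ x, ∑ y, P x y * H y ≤ lam * H x) (x : V) (a : V → Bool) :
    |g (flipAt x a) - g a| ≤ H x := by
  classical
  by_contra hcon
  push Not at hcon
  obtain ⟨⟨y, b⟩, _, hmax⟩ := Finset.exists_max_image (Finset.univ : Finset (V × (V → Bool)))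
    (fun q => |g (flipAt q.1 q.2) - g q.2| - H q.1) ⟨(x, a), Finset.mem_univ _⟩
  set ρ : ℝ := |g (flipAt y b) - g b| - H y with hρ
  have hρpos : 0 < ρ := by
    have := hmax (x, a) (Finset.mem_univ _)
    simp only at this
    linarith
  have hle : ∀ (y' : V) (b' : V → Bool), |g (flipAt y' b') - g b'| ≤ ρ + H y' := by
    intro y' b'
    have := hmax (y', b') (Finset.mem_univ _)
    simp only at this
    linarith
  have hyL : ¬ L0 y := by
    intro h
    have h1 := hH1 y h
    have h2 : |g (flipAt y b) - g b| ≤ 1 := by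
      rw [abs_le]
      have := hg.nonneg (flipAt y b)
      have := hg.le_one (flipAt y b)
      have := hg.nonneg b
      have := hg.le_one b
      constructor <;> linarith
    linarith
  have hbC : ¬ C b := by
    intro h
    have h' : C (flipAt y b) := (hC y hyL b).2 h
    rw [hρ, hg.one _ h, hg.one _ h'] at hρpos
    simp only [sub_self, abs_zero] at hρpos
    have := hH y
    linarith
  have hbC' : ¬ C (flipAt y b) := fun h => hbC ((hC y hyL b).1 h)
  have h1 := hg.harm _ hbC
  have h2 := hg.harm _ hbC'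
  set D : ℝ := g (flipAt y b) - g b with hD
  set R : ℝ := ∑ p : V × V, rateE P p with hR
  have h3 : (lam + R) * D = ∑ p : V × V, rateE P p *
      (g (flipAt (Equiv.swap p.1 p.2 y) (exch p b)) - g (exch p b)) := by
    have h4 : lam * D = gen (rateE P) exch g (flipAt y b) - gen (rateE P) exch g b := by
      rw [h1, h2, hD]; ring
    have h5 : gen (rateE P) exch g (flipAt y b) - gen (rateE P) exch g b
        = ∑ p : V × V, (rateE P p *
      (g (flipAt (Equiv.swap p.1 p.2 y) (exch p b)) - g (exch p b)) - rateE P p * D) := by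
      unfold gen
      rw [← Finset.sum_sub_distrib]
      apply Finset.sum_congr rfl
      intro p _
      rw [exch_flipAt, hD]; ring
    rw [Finset.sum_sub_distrib, ← Finset.sum_mul] at h5
    rw [add_mul, h4, h5]; ring
  have h6 : (lam + R) * |D| ≤ ∑ p : V × V, rateE P p * (ρ + H (Equiv.swap p.1 p.2 y)) := by
    have hRnn : 0 ≤ R := Finset.sum_nonneg fun p _ => by
      unfold rateE; have := hP0 p.1 p.2; linarith
    have hlr : 0 ≤ lam + R := by linarith
    have : (lam + R) * |D| = |(lam + R) * D| := by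
      rw [abs_mul, abs_of_nonneg hlr]
    rw [this, h3]
    refine (Finset.abs_sum_le_sum_abs _ _).trans ?_
    apply Finset.sum_le_sum
    intro p _
    have h0 : 0 ≤ rateE P p := by unfold rateE; have := hP0 p.1 p.2; linarith
    rw [abs_mul, abs_of_nonneg h0]
    exact mul_le_mul_of_nonneg_left (hle _ _) h0
  have h7 : ∑ p : V × V, rateE P p * (ρ + H (Equiv.swap p.1 p.2 y))
      = R * ρ + ∑ p : V × V, rateE P p * H (Equiv.swap p.1 p.2 y) := by
    rw [hR, Finset.sum_mul, ← Finset.sum_add_distrib]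
    exact Finset.sum_congr rfl fun p _ => by ring
  have h8 := sum_swap_H_le P hP0 hPs H hH y
  have h9 := hHs y
  have h10 : |D| = ρ + H y := by rw [hρ]; ring
  rw [h10] at h6
  nlinarith

end

end

section

open Finset

/-- iterates of the kernel -/
noncomputable def hIter {I : Type*} (P : I → I → ℝ) (Λ : Finset I) (lam : ℝ) :
    ℕ → I → ENNReal
  | 0 => fun x => by classical exact if x ∈ Λ then 1 else 0
  | n + 1 => fun x => (ENNReal.ofReal lam)⁻¹ * ∑' y, ENNReal.ofReal (P x y) * hIter P Λ lam n y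

theorem exists_H {I : Type*} (P : I → I → ℝ) (hP0 : ∀ x y, 0 ≤ P x y)
    (hPs : ∀ x y, P x y = P y x) {M : ℝ} (hM0 : 0 ≤ M)
    (hM : ∀ x, Summable (P x) ∧ ∑' y, P x y ≤ M) (Λ : Finset I) :
    ∃ H : I → ℝ, (∀ x, 0 ≤ H x) ∧ (∀ x ∈ Λ, 1 ≤ H x) ∧ Summable H ∧
      ∀ x, ∀ V : Finset I, ∑ y ∈ V, P x y * H y ≤ (2 * M + 1) * H x := by
  classical
  set lam : ℝ := 2 * M + 1 with hlam
  set r : ENNReal := ENNReal.ofReal lam with hr
  set p : I → I → ENNReal := fun x y => ENNReal.ofReal (P x y) with hp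
  set h : ℕ → I → ENNReal := hIter P Λ lam with hh
  have hr0 : r ≠ 0 := by
    rw [hr]; simp only [ne_eq, ENNReal.ofReal_eq_zero, not_le]; linarith
  have hrt : r ≠ ⊤ := ENNReal.ofReal_ne_top
  have h0 : ∀ x, h 0 x = if x ∈ Λ then 1 else 0 := fun x => by
    simp only [hh, hIter]
  have hsucc : ∀ n x, h (n + 1) x = r⁻¹ * ∑' y, p x y * h n y := fun n x => rfl
  have hcol : ∀ y, ∑' x, p x y ≤ ENNReal.ofReal M := by
    intro y
    have e1 : ∑' x, p x y = ENNReal.ofReal (∑' x, P y x) := by
      rw [ENNReal.ofReal_tsum_of_nonneg (fun x => hP0 y x) (hM y).1]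
      exact tsum_congr fun x => by simp only [hp]; rw [hPs x y]
    rw [e1]
    exact ENNReal.ofReal_le_ofReal (hM y).2
  have hq : r⁻¹ * ENNReal.ofReal M ≤ 2⁻¹ := by
    have h1 : ENNReal.ofReal M ≤ 2⁻¹ * r := by
      have h2 : (2⁻¹ : ENNReal) * r = ENNReal.ofReal (2⁻¹ * lam) := by
        rw [ENNReal.ofReal_mul (by norm_num), hr]
        congr 1
        rw [ENNReal.ofReal_inv_of_pos (by norm_num)]
        norm_num
      rw [h2]
      apply ENNReal.ofReal_le_ofReal
      rw [hlam]; linarith
    calc r⁻¹ * ENNReal.ofReal M ≤ r⁻¹ * (2⁻¹ * r) := by gcongr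
      _ = 2⁻¹ * (r⁻¹ * r) := by ring
      _ = 2⁻¹ := by rw [ENNReal.inv_mul_cancel hr0 hrt, mul_one]
  have hsum : ∀ n, ∑' x, h n x ≤ (2⁻¹) ^ n * (Λ.card : ENNReal) := by
    intro n
    induction n with
    | zero =>
      rw [pow_zero, one_mul]
      have : ∑' x, h 0 x = ∑ x ∈ Λ, (1 : ENNReal) := by
        rw [tsum_eq_sum (s := Λ)]
        · exact Finset.sum_congr rfl fun x hx => by rw [h0, if_pos hx]
        · intro x hx; rw [h0, if_neg hx]
      rw [this]; simp
    | succ n ih =>
      calc ∑' x, h (n + 1) x = r⁻¹ * ∑' x, ∑' y, p x y * h n y := by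
            simp_rw [hsucc]; rw [ENNReal.tsum_mul_left]
        _ = r⁻¹ * ∑' y, (∑' x, p x y) * h n y := by
            rw [ENNReal.tsum_comm]; simp_rw [ENNReal.tsum_mul_right]
        _ ≤ r⁻¹ * ∑' y, ENNReal.ofReal M * h n y := by
            gcongr with y
            exact hcol y
        _ = (r⁻¹ * ENNReal.ofReal M) * ∑' y, h n y := by rw [ENNReal.tsum_mul_left]; ring
        _ ≤ 2⁻¹ * ((2⁻¹) ^ n * (Λ.card : ENNReal)) := by gcongr
        _ = (2⁻¹) ^ (n + 1) * (Λ.card : ENNReal) := by rw [pow_succ]; ring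
  set H0 : I → ENNReal := fun x => ∑' n, h n x with hH0
  have hH0sum : ∑' x, H0 x ≠ ⊤ := by
    have h1 : ∑' x, H0 x ≤ 2 * (Λ.card : ENNReal) := by
      calc ∑' x, H0 x = ∑' n, ∑' x, h n x := ENNReal.tsum_comm
        _ ≤ ∑' n, (2⁻¹) ^ n * (Λ.card : ENNReal) := ENNReal.tsum_le_tsum hsum
        _ = 2 * (Λ.card : ENNReal) := by
            rw [ENNReal.tsum_mul_right, ENNReal.tsum_geometric]
            congr 1
            rw [ENNReal.one_sub_inv_two, inv_inv]
    exact ne_top_of_le_ne_top (ENNReal.mul_ne_top (by norm_num) (ENNReal.natCast_ne_top _)) h1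
  have hH0x : ∀ x, H0 x ≠ ⊤ := fun x => ENNReal.ne_top_of_tsum_ne_top hH0sum x
  have hsuper : ∀ x, ∑' y, p x y * H0 y ≤ r * H0 x := by
    intro x
    calc ∑' y, p x y * H0 y = ∑' n, ∑' y, p x y * h n y := by
          simp_rw [hH0, ← ENNReal.tsum_mul_left]; rw [ENNReal.tsum_comm]
      _ = ∑' n, r * h (n + 1) x := by
          apply tsum_congr
          intro n
          rw [hsucc, ← mul_assoc, ENNReal.mul_inv_cancel hr0 hrt, one_mul]
      _ = r * ∑' n, h (n + 1) x := ENNReal.tsum_mul_left
      _ ≤ r * H0 x := by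
          gcongr
          exact ENNReal.tsum_comp_le_tsum_of_injective (add_left_injective 1) _
  refine ⟨fun x => (H0 x).toReal, fun x => ENNReal.toReal_nonneg, ?_, ?_, ?_⟩
  · intro x hx
    have h1 : (1 : ENNReal) ≤ H0 x := by
      calc (1 : ENNReal) = h 0 x := by rw [h0, if_pos hx]
        _ ≤ H0 x := ENNReal.le_tsum 0
    have := ENNReal.toReal_mono (hH0x x) h1
    simpa using this
  · exact ENNReal.summable_toReal hH0sum
  · intro x V
    have h1 : ∑ y ∈ V, p x y * H0 y ≤ r * H0 x :=
      (ENNReal.sum_le_tsum V).trans (hsuper x)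
    have h2 := ENNReal.toReal_mono (ENNReal.mul_ne_top hrt (hH0x x)) h1
    rw [ENNReal.toReal_sum (fun y _ => ENNReal.mul_ne_top ENNReal.ofReal_ne_top (hH0x y)),
      ENNReal.toReal_mul, ENNReal.toReal_ofReal (by rw [hlam]; linarith)] at h2
    refine (le_of_eq ?_).trans h2
    apply Finset.sum_congr rfl
    intro y _
    rw [ENNReal.toReal_mul, ENNReal.toReal_ofReal (hP0 x y)]

end

section

open MeasureTheory Filter Topology

variable {I : Type*} [DecidableEq I]

/-- restriction to a finite set -/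
def res (Λ : Finset I) (ω : I → Bool) : Λ → Bool := fun v => ω v

/-- extension by `false` -/
def ext (Λ : Finset I) (a : Λ → Bool) : I → Bool := fun x => if h : x ∈ Λ then a ⟨x, h⟩ else false

@[simp] lemma res_ext (Λ : Finset I) (a : Λ → Bool) : res Λ (ext Λ a) = a := by
  funext v; simp [res, ext]

lemma ext_res_apply (Λ : Finset I) (ω : I → Bool) {x : I} (hx : x ∈ Λ) :
    ext Λ (res Λ ω) x = ω x := by
  simp [res, ext, hx]

/-- dependence on a finite set -/
def DepOn (Λ : Finset I) {β : Sort*} (f : (I → Bool) → β) : Prop :=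
  ∀ ω ω' : I → Bool, (∀ x ∈ Λ, ω x = ω' x) → f ω = f ω'

omit [DecidableEq I] in
lemma DepOn.mono {Λ Λ' : Finset I} (h : Λ ⊆ Λ') {β : Sort*} {f : (I → Bool) → β}
    (hf : DepOn Λ f) : DepOn Λ' f :=
  fun ω ω' hω => hf ω ω' fun x hx => hω x (h hx)

lemma DepOn.factor {Λ : Finset I} {β : Sort*} {f : (I → Bool) → β} (hf : DepOn Λ f)
    (ω : I → Bool) : f ω = f (ext Λ (res Λ ω)) :=
  hf _ _ fun x hx => (ext_res_apply Λ ω hx).symm

omit [DecidableEq I] in
lemma measurable_res (Λ : Finset I) : Measurable (res Λ : (I → Bool) → (Λ → Bool)) := by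
  unfold res; fun_prop

lemma DepOn.measurable {Λ : Finset I} {β : Type*} [MeasurableSpace β] {f : (I → Bool) → β}
    (hf : DepOn Λ f) : Measurable f := by
  have : f = (fun a => f (ext Λ a)) ∘ res Λ := funext fun ω => hf.factor ω
  rw [this]
  exact (measurable_of_finite _).comp (measurable_res Λ)

lemma DepOn.bounded {Λ : Finset I} {f : (I → Bool) → ℝ} (hf : DepOn Λ f) :
    ∃ B : ℝ, 0 ≤ B ∧ ∀ ω, |f ω| ≤ B := by
  have hfin : (Set.range fun a : Λ → Bool => |f (ext Λ a)|).Finite := Set.finite_range _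
  obtain ⟨B, hB⟩ := hfin.bddAbove
  refine ⟨max B 0, le_max_right _ _, fun ω => ?_⟩
  rw [hf.factor ω]
  exact (hB ⟨res Λ ω, rfl⟩).trans (le_max_left _ _)

omit [DecidableEq I] in
lemma depOn_comp_res (Λ : Finset I) {β : Sort*} (g : (Λ → Bool) → β) :
    DepOn Λ fun ω => g (res Λ ω) := by
  intro ω ω' h
  have : res Λ ω = res Λ ω' := funext fun v => h v v.2
  simp only [this]

/-! ### summability -/

omit [DecidableEq I] in
lemma summable_PH {P : I → I → ℝ} (hP : IsKernel P) {H : I → ℝ} (hH : ∀ x, 0 ≤ H x)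
    (hHs : Summable H) : Summable fun p : I × I => P p.1 p.2 * H p.1 := by
  obtain ⟨M, hM⟩ := hP.bound
  rw [summable_prod_of_nonneg (fun p => mul_nonneg (hP.nonneg _ _) (hH _))]
  refine ⟨fun x => (hM x).1.mul_right (H x), ?_⟩
  have : ∀ x, ∑' y, P x y * H x = (∑' y, P x y) * H x := fun x => tsum_mul_right
  simp only [this]
  refine Summable.of_nonneg_of_le (fun x => mul_nonneg (tsum_nonneg fun y => hP.nonneg _ _) (hH x))
    (fun x => mul_le_mul_of_nonneg_right (hM x).2 (hH x)) (hHs.mul_left M)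

omit [DecidableEq I] in
lemma summable_PH' {P : I → I → ℝ} (hP : IsKernel P) {H : I → ℝ} (hH : ∀ x, 0 ≤ H x)
    (hHs : Summable H) : Summable fun p : I × I => P p.1 p.2 * H p.2 := by
  have h := summable_PH hP hH hHs
  have h2 := (Equiv.prodComm I I).summable_iff.2 h
  refine h2.congr fun p => ?_
  simp only [Function.comp_apply, Equiv.prodComm_apply, Prod.fst_swap, Prod.snd_swap]
  rw [hP.symm]

lemma exchange_of_notMem {Λ : Finset I} {β : Sort*} {f : (I → Bool) → β} (hf : DepOn Λ f)
    {x y : I} (hx : x ∉ Λ) (hy : y ∉ Λ) (ω : I → Bool) : f (exchange x y ω) = f ω := by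
  apply hf
  intro v hv
  unfold exchange
  have h1 : v ≠ x := fun h => hx (h ▸ hv)
  have h2 : v ≠ y := fun h => hy (h ▸ hv)
  rw [Equiv.swap_apply_of_ne_of_ne h1 h2]

/-- indicator of a finite set -/
def ind (Λ : Finset I) (x : I) : ℝ := if x ∈ Λ then 1 else 0

lemma ind_nonneg (Λ : Finset I) (x : I) : 0 ≤ ind Λ x := by unfold ind; split_ifs <;> norm_num

lemma summable_ind (Λ : Finset I) : Summable (ind Λ) :=
  summable_of_ne_finset_zero (s := Λ) fun x hx => by simp [ind, hx]

lemma term_bound {P : I → I → ℝ} (hP : IsKernel P) {Λ : Finset I} {f : (I → Bool) → ℝ}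
    (hf : DepOn Λ f) {B : ℝ} (hB : ∀ ω, |f ω| ≤ B) (ω : I → Bool) (p : I × I) :
    |P p.1 p.2 * (f (exchange p.1 p.2 ω) - f ω)| ≤
      2 * B * (P p.1 p.2 * ind Λ p.1 + P p.1 p.2 * ind Λ p.2) := by
  have hB0 : 0 ≤ B := (abs_nonneg _).trans (hB ω)
  have hp := hP.nonneg p.1 p.2
  have h2 : |f (exchange p.1 p.2 ω) - f ω| ≤ 2 * B := by
    have h3 := hB (exchange p.1 p.2 ω)
    have h4 := hB ω
    rw [abs_le] at *
    constructor <;> linarith [h3.1, h3.2, h4.1, h4.2]
  rw [abs_mul, abs_of_nonneg hp]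
  by_cases h1 : p.1 ∈ Λ
  · have : ind Λ p.1 = 1 := if_pos h1
    have h5 := ind_nonneg Λ p.2
    rw [this]
    have h6 : 0 ≤ 2 * B * (P p.1 p.2 * ind Λ p.2) := by positivity
    have h7 := mul_le_mul_of_nonneg_left h2 hp
    calc _ ≤ _ := h7
      _ ≤ _ := by linarith
  · by_cases h1' : p.2 ∈ Λ
    · have : ind Λ p.2 = 1 := if_pos h1'
      have h5 := ind_nonneg Λ p.1
      rw [this]
      have h6 : 0 ≤ 2 * B * (P p.1 p.2 * ind Λ p.1) := by positivity
      have h7 := mul_le_mul_of_nonneg_left h2 hp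
      calc _ ≤ _ := h7
        _ ≤ _ := by linarith
    · rw [exchange_of_notMem hf h1 h1', sub_self, abs_zero, mul_zero]
      have := ind_nonneg Λ p.1
      have := ind_nonneg Λ p.2
      positivity

lemma summable_term {P : I → I → ℝ} (hP : IsKernel P) {Λ : Finset I} {f : (I → Bool) → ℝ}
    (hf : DepOn Λ f) (ω : I → Bool) :
    Summable fun p : I × I => P p.1 p.2 * (f (exchange p.1 p.2 ω) - f ω) := by
  obtain ⟨B, _, hB⟩ := hf.bounded
  have h1 := (((summable_PH hP (ind_nonneg Λ) (summable_ind Λ)).add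
    (summable_PH' hP (ind_nonneg Λ) (summable_ind Λ))).mul_left (2 * B))
  exact Summable.of_norm_bounded h1 fun p => by
    rw [Real.norm_eq_abs]; exact term_bound hP hf hB ω p

/-- the generator of a local function is bounded -/
lemma exclusionGen_bounded {P : I → I → ℝ} (hP : IsKernel P) {Λ : Finset I}
    {f : (I → Bool) → ℝ} (hf : DepOn Λ f) :
    ∃ K : ℝ, 0 ≤ K ∧ ∀ ω, |exclusionGen P f ω| ≤ K := by
  obtain ⟨B, hB0, hB⟩ := hf.bounded
  have h1 := (((summable_PH hP (ind_nonneg Λ) (summable_ind Λ)).add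
    (summable_PH' hP (ind_nonneg Λ) (summable_ind Λ))).mul_left (2 * B))
  set T := ∑' p : I × I, 2 * B * (P p.1 p.2 * ind Λ p.1 + P p.1 p.2 * ind Λ p.2) with hT
  have hT0 : 0 ≤ T := tsum_nonneg fun p => by
    have := ind_nonneg Λ p.1
    have := ind_nonneg Λ p.2
    have := hP.nonneg p.1 p.2
    positivity
  refine ⟨T, hT0, fun ω => ?_⟩
  unfold exclusionGen
  rw [abs_mul, abs_of_nonneg (by norm_num : (0 : ℝ) ≤ 1 / 2)]
  have h2 : |∑' p : I × I, P p.1 p.2 * (f (exchange p.1 p.2 ω) - f ω)| ≤ T := by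
    rw [← Real.norm_eq_abs]
    exact tsum_of_norm_bounded h1.hasSum fun p => by
      rw [Real.norm_eq_abs]; exact term_bound hP hf hB ω p
  linarith

lemma measurable_exchange (x y : I) : Measurable (exchange x y : (I → Bool) → (I → Bool)) := by
  unfold exchange; fun_prop

lemma measurable_exclusionGen [Countable I] {P : I → I → ℝ} (hP : IsKernel P) {Λ : Finset I}
    {f : (I → Bool) → ℝ} (hf : DepOn Λ f) : Measurable (exclusionGen P f) := by
  unfold exclusionGen
  apply Measurable.const_mul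
  apply Measurable.tsum
  intro p
  exact ((hf.measurable.comp (measurable_exchange _ _)).sub hf.measurable).const_mul _

/-! ### comparison with the finite generator -/

lemma res_exchange (Λ : Finset I) (x y : Λ) (ω : I → Bool) :
    res Λ (exchange x.1 y.1 ω) = exch (x, y) (res Λ ω) := by
  funext v
  unfold res exchange exch
  by_cases h1 : v = x
  · subst h1; simp
  · by_cases h2 : v = y
    · subst h2; simp
    · rw [Equiv.swap_apply_of_ne_of_ne (fun h => h1 (Subtype.ext h)) (fun h => h2 (Subtype.ext h))]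
      simp only
      rw [Equiv.swap_apply_of_ne_of_ne h1 h2]

lemma res_exchange_left (Λ : Finset I) (x : Λ) (y : I) (hy : y ∉ Λ) (ω : I → Bool) :
    res Λ (exchange x.1 y ω) = res Λ ω ∨ res Λ (exchange x.1 y ω) = flipAt x (res Λ ω) := by
  by_cases h : ω y = ω x.1
  · left
    funext v
    unfold res exchange
    by_cases h1 : v = x
    · subst h1; simp [h]
    · have h4 : v.1 ≠ x.1 := fun h => h1 (Subtype.ext h)
      have h5 : v.1 ≠ y := fun h => hy (h ▸ v.2)
      rw [Equiv.swap_apply_of_ne_of_ne h4 h5]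
  · right
    have h3 : ω y = !ω x.1 := by
      revert h; cases ω y <;> cases ω x.1 <;> simp
    funext v
    unfold res exchange flipAt
    by_cases h1 : v = x
    · subst h1; simp [h3]
    · have h4 : v.1 ≠ x.1 := fun h => h1 (Subtype.ext h)
      have h5 : v.1 ≠ y := fun h => hy (h ▸ v.2)
      rw [Equiv.swap_apply_of_ne_of_ne h4 h5, Function.update_of_ne h1]

omit [DecidableEq I] in
lemma exchange_comm [DecidableEq I] (x y : I) (ω : I → Bool) : exchange x y ω = exchange y x ω := by
  unfold exchange; rw [Equiv.swap_comm]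

/-- bound for the part of the generator outside `Λ × Λ` -/
lemma rem_bound {P : I → I → ℝ} (hP : IsKernel P) (Λ : Finset I) (g : (Λ → Bool) → ℝ)
    {H : I → ℝ} (hH : ∀ x, 0 ≤ H x) (hg : ∀ (x : Λ) a, |g (flipAt x a) - g a| ≤ H x)
    (ω : I → Bool) (p : I × I) :
    |P p.1 p.2 * (g (res Λ (exchange p.1 p.2 ω)) - g (res Λ ω))
      - (if p.1 ∈ Λ ∧ p.2 ∈ Λ then
          P p.1 p.2 * (g (res Λ (exchange p.1 p.2 ω)) - g (res Λ ω)) else 0)| ≤
      P p.1 p.2 * H p.1 * (if p.2 ∈ Λ then 0 else 1)
        + P p.1 p.2 * H p.2 * (if p.1 ∈ Λ then 0 else 1) := by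
  have hp := hP.nonneg p.1 p.2
  have hH1 := hH p.1
  have hH2 := hH p.2
  by_cases h1 : p.1 ∈ Λ
  · by_cases h2 : p.2 ∈ Λ
    · simp [h1, h2]
    · simp only [h1, h2, and_false, if_false, sub_zero, if_true, mul_zero, add_zero, mul_one]
      rw [abs_mul, abs_of_nonneg hp]
      apply mul_le_mul_of_nonneg_left _ hp
      rcases res_exchange_left Λ ⟨p.1, h1⟩ p.2 h2 ω with h | h
      · simp only at h; rw [h]; simpa using hH1
      · simp only at h; rw [h]; exact hg ⟨p.1, h1⟩ _
  · by_cases h2 : p.2 ∈ Λ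
    · simp only [h1, h2, false_and, if_false, sub_zero, if_true, mul_zero, zero_add, mul_one]
      rw [abs_mul, abs_of_nonneg hp]
      apply mul_le_mul_of_nonneg_left _ hp
      rw [exchange_comm]
      rcases res_exchange_left Λ ⟨p.2, h2⟩ p.1 h1 ω with h | h
      · simp only at h; rw [h]; simpa using hH2
      · simp only at h; rw [h]; exact hg ⟨p.2, h2⟩ _
    · have := exchange_of_notMem (depOn_comp_res Λ g) h1 h2 ω
      simp only [h1, h2, and_false, if_false, sub_zero, mul_one, this, sub_self, mul_zero, abs_zero]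
      positivity

lemma tsum_fin_part {P : I → I → ℝ} (Λ : Finset I) (g : (Λ → Bool) → ℝ) (ω : I → Bool) :
    (1 / 2) * ∑' p : I × I, (if p.1 ∈ Λ ∧ p.2 ∈ Λ then
          P p.1 p.2 * (g (res Λ (exchange p.1 p.2 ω)) - g (res Λ ω)) else 0)
      = gen (rateE fun x y : Λ => P x y) exch g (res Λ ω) := by
  rw [tsum_eq_sum (s := Λ ×ˢ Λ)]
  · have h1 : ∑ p ∈ Λ ×ˢ Λ, (if p.1 ∈ Λ ∧ p.2 ∈ Λ then
          P p.1 p.2 * (g (res Λ (exchange p.1 p.2 ω)) - g (res Λ ω)) else 0)
        = ∑ q : Λ × Λ, P q.1 q.2 * (g (exch q (res Λ ω)) - g (res Λ ω)) := by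
      rw [Finset.sum_product, Fintype.sum_prod_type, ← Finset.sum_coe_sort Λ]
      apply Finset.sum_congr rfl
      intro x _
      rw [← Finset.sum_coe_sort Λ]
      apply Finset.sum_congr rfl
      intro y _
      simp only [x.2, y.2, and_self, if_true]
      rw [res_exchange]
    rw [h1, gen, Finset.mul_sum]
    apply Finset.sum_congr rfl
    intro q _
    unfold rateE
    ring
  · intro p hp
    rw [Finset.mem_product] at hp
    rw [if_neg hp]

lemma gen_split {P : I → I → ℝ} (hP : IsKernel P) (Λ : Finset I) (g : (Λ → Bool) → ℝ)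
    {H : I → ℝ} (hH : ∀ x, 0 ≤ H x) (hHs : Summable H)
    (hg : ∀ (x : Λ) a, |g (flipAt x a) - g a| ≤ H x) (ω : I → Bool) :
    exclusionGen P (fun ω => g (res Λ ω)) ω ≤
      gen (rateE fun x y : Λ => P x y) exch g (res Λ ω)
        + ∑' p : I × I, P p.1 p.2 * H p.1 * (if p.2 ∈ Λ then 0 else 1) := by
  rw [← tsum_fin_part]
  unfold exclusionGen
  set t : I × I → ℝ := fun p => P p.1 p.2 * (g (res Λ (exchange p.1 p.2 ω)) - g (res Λ ω)) with ht
  set fn : I × I → ℝ := fun p => if p.1 ∈ Λ ∧ p.2 ∈ Λ then t p else 0 with hfn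
  set b1 : I × I → ℝ := fun p => P p.1 p.2 * H p.1 * (if p.2 ∈ Λ then 0 else 1) with hb1
  set b2 : I × I → ℝ := fun p => P p.1 p.2 * H p.2 * (if p.1 ∈ Λ then 0 else 1) with hb2
  have ht_s : Summable t := summable_term hP (depOn_comp_res Λ g) ω
  have hfn_s : Summable fn := summable_of_ne_finset_zero (s := Λ ×ˢ Λ) fun p hp => by
    rw [Finset.mem_product] at hp
    simp only [hfn]; rw [if_neg hp]
  have hb1_s : Summable b1 := by
    refine Summable.of_nonneg_of_le (fun p => ?_) (fun p => ?_) (summable_PH hP hH hHs)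
    · simp only [hb1]
      have := hP.nonneg p.1 p.2
      have := hH p.1
      split_ifs <;> simp <;> positivity
    · simp only [hb1]
      have := mul_nonneg (hP.nonneg p.1 p.2) (hH p.1)
      split_ifs <;> simp <;> linarith
  have hb2_eq : b2 = b1 ∘ (Equiv.prodComm I I) := by
    funext p
    simp only [hb1, hb2, Function.comp_apply, Equiv.prodComm_apply, Prod.fst_swap, Prod.snd_swap]
    rw [hP.symm p.1 p.2]
    rfl
  have hb2_s : Summable b2 := by
    rw [hb2_eq]; exact (Equiv.prodComm I I).summable_iff.2 hb1_s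
  have hb2_t : ∑' p, b2 p = ∑' p, b1 p := by
    rw [hb2_eq]; exact (Equiv.prodComm I I).tsum_eq b1
  have h1 : ∑' p, t p ≤ ∑' p, fn p + (∑' p, b1 p + ∑' p, b2 p) := by
    rw [← hb1_s.tsum_add hb2_s, ← hfn_s.tsum_add (hb1_s.add hb2_s)]
    apply Summable.tsum_le_tsum _ ht_s (hfn_s.add (hb1_s.add hb2_s))
    intro p
    have := (abs_le.1 (rem_bound hP Λ g hH hg ω p)).2
    simp only [hfn, ht, hb1, hb2] at this ⊢
    linarith
  rw [hb2_t] at h1
  linarith

/-- finite volumes with small remainder -/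
lemma exists_volume {P : I → I → ℝ} (hP : IsKernel P) {H : I → ℝ} (hH : ∀ x, 0 ≤ H x)
    (hHs : Summable H) (Λ : Finset I) {ε : ℝ} (hε : 0 < ε) :
    ∃ Λ' : Finset I, Λ ⊆ Λ' ∧
      ∑' p : I × I, P p.1 p.2 * H p.1 * (if p.2 ∈ Λ' then 0 else 1) ≤ ε := by
  have hs := summable_PH hP hH hHs
  obtain ⟨s, hs2⟩ := ((tendsto_order.1 (tendsto_tsum_compl_atTop_zero
    (fun p : I × I => P p.1 p.2 * H p.1))).2 ε hε).exists
  refine ⟨Λ ∪ s.image Prod.snd, Finset.subset_union_left, ?_⟩
  refine le_trans ?_ hs2.le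
  have h1 : ∑' p : {p : I × I // p ∉ s}, P p.1.1 p.1.2 * H p.1.1
      = ∑' p : I × I, Set.indicator {p | p ∉ s} (fun p => P p.1 p.2 * H p.1) p :=
    tsum_subtype {p : I × I | p ∉ s} (fun p => P p.1 p.2 * H p.1)
  rw [h1]
  have hnn : ∀ p : I × I, 0 ≤ P p.1 p.2 * H p.1 := fun p => mul_nonneg (hP.nonneg _ _) (hH _)
  apply Summable.tsum_le_tsum
  · intro p
    by_cases hp : p ∈ s
    · have : p.2 ∈ Λ ∪ s.image Prod.snd :=
        Finset.mem_union_right _ (Finset.mem_image_of_mem _ hp)
      rw [if_pos this, mul_zero]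
      exact Set.indicator_nonneg (fun p _ => hnn p) p
    · rw [Set.indicator_of_mem (show p ∈ {p | p ∉ s} from hp)]
      have := hnn p
      split_ifs <;> simp <;> linarith
  · refine Summable.of_nonneg_of_le (fun p => ?_) (fun p => ?_) hs
    · have := hnn p
      split_ifs <;> simp; exact this
    · have := hnn p
      split_ifs <;> simp; exact this
  · exact hs.indicator _

end

section

open MeasureTheory Filter Topology

variable {I : Type*} [DecidableEq I] {Ω : Type*} [MeasurableSpace Ω]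

/-- the process visits `C` at one of the first times of the dyadic grid of level `m` -/
def gridHit (X : ℝ → Ω → I → Bool) (C : (I → Bool) → Prop) (T m : ℕ) : Set Ω :=
  {w | ∃ i : ℕ, i < (T + 1) * 2 ^ m ∧ C (X ((i : ℝ) / 2 ^ m) w)}

omit [DecidableEq I] [MeasurableSpace Ω] in
lemma gridHit_mono (X : ℝ → Ω → I → Bool) (C : (I → Bool) → Prop) (T : ℕ) :
    Monotone (gridHit X C T) := by
  apply monotone_nat_of_le_succ
  intro m w hw
  obtain ⟨i, hi, hC⟩ := hw
  refine ⟨2 * i, by rw [pow_succ]; nlinarith, ?_⟩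
  have : ((2 * i : ℕ) : ℝ) / 2 ^ (m + 1) = (i : ℝ) / 2 ^ m := by
    push_cast
    rw [pow_succ]
    field_simp
  rw [this]; exact hC

omit [DecidableEq I] [MeasurableSpace Ω] in
lemma exists_grid_of_cadlag {X : ℝ → Ω → I → Bool} {w : Ω} (hw : IsCadlag fun t => X t w)
    {Λ : Finset I} {C : (I → Bool) → Prop} (hC : DepOn Λ C) {T : ℕ} {t : ℝ} (h0 : 0 ≤ t)
    (hT : t ≤ T) (hCt : C (X t w)) : ∃ m, w ∈ gridHit X C T m := by
  have h1 : ∀ᶠ s in 𝓝[>] t, ∀ x ∈ Λ, X s w x = X t w x := by
    rw [Filter.eventually_all_finset]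
    intro x _
    exact (hw x).1 t h0
  rw [eventually_nhdsWithin_iff, Metric.eventually_nhds_iff] at h1
  obtain ⟨ε, hε, h2⟩ := h1
  obtain ⟨m0, hm0⟩ := exists_pow_lt_of_lt_one hε (by norm_num : (1 / 2 : ℝ) < 1)
  set m := m0 + 1 with hm
  have hm1 : (1 / 2 : ℝ) ^ m < ε := lt_of_le_of_lt
    (pow_le_pow_of_le_one (by norm_num) (by norm_num) (Nat.le_succ m0)) hm0
  have hpos : (0 : ℝ) < 2 ^ m := by positivity
  set i : ℕ := ⌊t * 2 ^ m⌋₊ + 1 with hi
  have hi1 : t * 2 ^ m < i := by
    rw [hi]; push_cast; exact Nat.lt_floor_add_one _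
  have hi2 : (i : ℝ) ≤ t * 2 ^ m + 1 := by
    rw [hi]; push_cast
    have := Nat.floor_le (by positivity : 0 ≤ t * 2 ^ m)
    linarith
  have e1 : t < (i : ℝ) / 2 ^ m := by rw [lt_div_iff₀ hpos]; exact hi1
  have e2 : (i : ℝ) / 2 ^ m ≤ t + (1 / 2) ^ m := by
    rw [div_le_iff₀ hpos, add_mul]
    have : (1 / 2 : ℝ) ^ m * 2 ^ m = 1 := by rw [← mul_pow]; norm_num
    rw [this]; exact hi2
  refine ⟨m, i, ?_, ?_⟩
  · have h3 : (i : ℝ) < ((T + 1) * 2 ^ m : ℕ) := by
      push_cast
      have h4 : (2 : ℝ) ≤ 2 ^ m := by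
        rw [hm, pow_succ]
        have : (1 : ℝ) ≤ 2 ^ m0 := one_le_pow₀ (by norm_num)
        linarith
      nlinarith
    exact_mod_cast h3
  · have h5 := h2 (y := (i : ℝ) / 2 ^ m) (by
      rw [Real.dist_eq, abs_of_pos (by linarith)]; linarith) e1
    rw [hC _ _ h5]; exact hCt

lemma measure_hit_le {μ : Measure Ω} {X : ℝ → Ω → I → Bool}
    (hX : ∀ᵐ w ∂μ, IsCadlag fun t => X t w) {Λ : Finset I} {C : (I → Bool) → Prop}
    (hC : DepOn Λ C) (T : ℕ) :
    μ {w | ∃ t : ℝ, 0 ≤ t ∧ t ≤ T ∧ C (X t w)} ≤ ⨆ m, μ (gridHit X C T m) := by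
  rw [← (gridHit_mono X C T).measure_iUnion]
  apply measure_mono_ae
  filter_upwards [hX] with w hw hmem
  obtain ⟨t, h0, hT, hCt⟩ := hmem
  obtain ⟨m, hm⟩ := exists_grid_of_cadlag hw hC h0 hT hCt
  exact Set.mem_iUnion.2 ⟨m, hm⟩

/-- elementary recursion, upper bound -/
lemma rec_upper {a p : ℕ → ℝ} {q e : ℝ} (hq : 1 ≤ q) (he : 0 ≤ e) (hp : ∀ i, 0 ≤ p i)
    (hrec : ∀ i, a (i + 1) ≤ q * (a i - p i) + e) (N : ℕ) :
    ∑ i ∈ Finset.range N, p i + a N ≤ q ^ N * (a 0 + N * e) := by
  induction N with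
  | zero => simp
  | succ n ih =>
    rw [Finset.sum_range_succ]
    have h1 := hrec n
    have h2 : 0 ≤ ∑ i ∈ Finset.range n, p i := Finset.sum_nonneg fun i _ => hp i
    have h3 := hp n
    have h4 : (1 : ℝ) ≤ q ^ (n + 1) := one_le_pow₀ hq
    have h5 : ∑ i ∈ Finset.range n, p i + p n + a (n + 1)
        ≤ q * (∑ i ∈ Finset.range n, p i + a n) + e := by nlinarith
    have h6 : q * (∑ i ∈ Finset.range n, p i + a n) ≤ q * (q ^ n * (a 0 + n * e)) :=
      mul_le_mul_of_nonneg_left ih (by linarith)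
    have h7 : q * (q ^ n * (a 0 + n * e)) + e ≤ q ^ (n + 1) * (a 0 + (n + 1 : ℕ) * e) := by
      have : q ^ (n + 1) * (a 0 + (n + 1 : ℕ) * e)
          = q * (q ^ n * (a 0 + n * e)) + q ^ (n + 1) * e := by push_cast; ring
      rw [this]
      nlinarith
    linarith

/-- elementary recursion, lower bound -/
lemma rec_lower {a p : ℕ → ℝ} {q e : ℝ} (hq : 1 ≤ q) (he : 0 ≤ e) (hp : ∀ i, 0 ≤ p i)
    (ha : ∀ i, a i ≤ 1) (hrec : ∀ i, q * (a i - p i) - e ≤ a (i + 1)) (N : ℕ) :
    a 0 ≤ ∑ i ∈ Finset.range N, p i + (1 / q) ^ N + N * e := by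
  have hq0 : 0 < q := by linarith
  have key : ∀ N : ℕ, a 0 ≤ ∑ i ∈ Finset.range N, p i + (1 / q) ^ N * a N + N * e := by
    intro N
    induction N with
    | zero => simp
    | succ n ih =>
      have h1 := hrec n
      have h2 : a n ≤ p n + (1 / q) * (a (n + 1) + e) := by
        have h3 : (1 / q) * (q * (a n - p n)) = a n - p n := by field_simp
        have h4 : (1 / q) * (q * (a n - p n)) ≤ (1 / q) * (a (n + 1) + e) :=
          mul_le_mul_of_nonneg_left (by linarith) (by positivity)
        linarith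
      have hθ0 : 0 ≤ (1 / q) ^ n := by positivity
      have hθ1 : (1 / q) ^ n ≤ 1 := pow_le_one₀ (by positivity) (by rw [div_le_one hq0]; exact hq)
      have hθ2 : (1 / q) ^ (n + 1) ≤ 1 :=
        pow_le_one₀ (by positivity) (by rw [div_le_one hq0]; exact hq)
      have h5 : (1 / q) ^ n * a n ≤ p n + (1 / q) ^ (n + 1) * a (n + 1) + e := by
        calc (1 / q) ^ n * a n ≤ (1 / q) ^ n * (p n + (1 / q) * (a (n + 1) + e)) :=
              mul_le_mul_of_nonneg_left h2 hθ0
          _ = (1 / q) ^ n * p n + (1 / q) ^ (n + 1) * a (n + 1) + (1 / q) ^ (n + 1) * e := by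
              rw [pow_succ]; ring
          _ ≤ 1 * p n + (1 / q) ^ (n + 1) * a (n + 1) + 1 * e := by
              have := mul_le_mul_of_nonneg_right hθ1 (hp n)
              have := mul_le_mul_of_nonneg_right hθ2 he
              linarith
          _ = _ := by ring
      rw [Finset.sum_range_succ]
      push_cast
      linarith
  have h1 := key N
  have h2 : (1 / q) ^ N * a N ≤ (1 / q) ^ N := by
    have : 0 ≤ (1 / q) ^ N := by positivity
    nlinarith [ha N]
  linarith

end

section

open MeasureTheory Filter Topology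

variable {I : Type*} [DecidableEq I] [Countable I] {Ω : Type*} [MeasurableSpace Ω]
  {P : I → I → ℝ} {μ : Measure Ω} [IsProbabilityMeasure μ] {X : ℝ → Ω → I → Bool}

omit [DecidableEq I] [Countable I] [IsProbabilityMeasure μ] in
lemma past_le (hm : ∀ t, 0 ≤ t → Measurable (X t)) (s : ℝ) :
    past X s ≤ (inferInstance : MeasurableSpace Ω) :=
  iSup₂_le fun r hr => (hm r hr.1).comap_le

omit [DecidableEq I] [Countable I] [MeasurableSpace Ω] in
lemma measurableSet_past {s r : ℝ} (h0 : 0 ≤ r) (hrs : r ≤ s) {B : Set (I → Bool)}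
    (hB : MeasurableSet B) : MeasurableSet[past X s] {w | X r w ∈ B} := by
  have h : MeasurableSpace.comap (X r) MeasurableSpace.pi ≤ past X s :=
    le_iSup₂ (f := fun r (_ : r ∈ Set.Icc 0 s) =>
      MeasurableSpace.comap (X r) MeasurableSpace.pi) r ⟨h0, hrs⟩
  exact h _ ⟨B, hB, rfl⟩

omit [DecidableEq I] [Countable I] in
lemma integrable_comp (hm : ∀ t, 0 ≤ t → Measurable (X t)) {f : (I → Bool) → ℝ}
    (hf : Measurable f) {K : ℝ} (hK : ∀ ω, |f ω| ≤ K) {t : ℝ} (ht : 0 ≤ t) :
    Integrable (fun w => f (X t w)) μ :=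
  Integrable.of_bound (hf.comp (hm t ht)).aestronglyMeasurable K
    (Filter.Eventually.of_forall fun w => by rw [Real.norm_eq_abs]; exact hK _)

lemma incr_le (hP : IsKernel P) (hX : IsExclusionDynamics P μ X) {Λ : Finset I}
    {f : (I → Bool) → ℝ} (hf : DepOn Λ f) {K : ℝ} (hK : ∀ ω, |exclusionGen P f ω| ≤ K)
    {s t : ℝ} (h0 : 0 ≤ s) (hst : s ≤ t) {E : Set Ω} (hE : MeasurableSet[past X s] E) :
    |∫ w in E, f (X t w) ∂μ - ∫ w in E, f (X s w) ∂μ| ≤ K * (t - s) := by
  have hK0 : 0 ≤ K := (abs_nonneg _).trans (hK (fun _ => false))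
  rw [hX.martingale f ⟨Λ, hf⟩ s t h0 hst E hE, ← Real.norm_eq_abs]
  have h1 := intervalIntegral.norm_integral_le_of_norm_le_const (a := s) (b := t) (C := K)
    (f := fun r => ∫ w in E, exclusionGen P f (X r w) ∂μ) (fun r _ => by
      have h2 := norm_setIntegral_le_of_norm_le_const (μ := μ) (s := E) (C := K)
        (f := fun w => exclusionGen P f (X r w)) (measure_lt_top _ _)
        (fun w _ => by rw [Real.norm_eq_abs]; exact hK _)
      refine h2.trans ?_
      have h3 : μ.real E ≤ 1 := measureReal_le_one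
      have h4 : 0 ≤ μ.real E := measureReal_nonneg
      nlinarith)
  rwa [abs_of_nonneg (by linarith)] at h1

/-- one step of the supermartingale inequality -/
lemma one_step (hP : IsKernel P) (hX : IsExclusionDynamics P μ X) {Λ : Finset I}
    {C : (I → Bool) → Prop} {lam : ℝ} (hlam : 0 < lam)
    {g : (Λ → Bool) → ℝ}
    (hg : IsPotential (rateE fun x y : Λ => P x y) exch lam (fun a => C (ext Λ a)) g)
    {δ : ℝ} (hδ : 0 ≤ δ)
    (hgen : ∀ ω, exclusionGen P (fun ω => g (res Λ ω)) ω ≤
      gen (rateE fun x y : Λ => P x y) exch g (res Λ ω) + δ)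
    {K : ℝ} (hK : ∀ ω, |exclusionGen P
      (fun ω => gen (rateE fun x y : Λ => P x y) exch g (res Λ ω)) ω| ≤ K)
    {s h : ℝ} (h0 : 0 ≤ s) (hh : 0 ≤ h) {E : Set Ω} (hE : MeasurableSet[past X s] E) :
    ∫ w in E, g (res Λ (X (s + h) w)) ∂μ ≤
      (1 + lam * h) * ∫ w in E, g (res Λ (X s w)) ∂μ + (δ * h + K * h ^ 2) := by
  have hK0 : 0 ≤ K := (abs_nonneg _).trans (hK (fun _ => false))
  have hEm : MeasurableSet E := past_le hX.measurable s E hE
  set gg : (I → Bool) → ℝ := fun ω => g (res Λ ω) with hgg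
  set v : (I → Bool) → ℝ := fun ω => gen (rateE fun x y : Λ => P x y) exch g (res Λ ω) with hv
  have hggD : DepOn Λ gg := depOn_comp_res Λ g
  have hvD : DepOn Λ v := depOn_comp_res Λ (gen (rateE fun x y : Λ => P x y) exch g)
  have hrate : ∀ p : Λ × Λ, 0 ≤ rateE (fun x y : Λ => P x y) p := fun p => by
    unfold rateE; have := hP.nonneg p.1 p.2; linarith
  have hv_le : ∀ ω, v ω ≤ lam * gg ω := by
    intro ω
    by_cases hC : C (ext Λ (res Λ ω))
    · have h1 : gg ω = 1 := hg.one _ hC
      have h2 : v ω ≤ 0 := by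
        simp only [hv, gen]
        apply Finset.sum_nonpos
        intro p _
        apply mul_nonpos_of_nonneg_of_nonpos (hrate p)
        have h3 : g (res Λ ω) = 1 := h1
        rw [h3]
        have := hg.le_one (exch p (res Λ ω))
        linarith
      rw [h1]; linarith
    · exact (hg.harm _ hC).le
  obtain ⟨Bv, _, hBv⟩ := hvD.bounded
  obtain ⟨Bg, _, hBg⟩ := exclusionGen_bounded hP hggD
  have hggB : ∀ ω, |gg ω| ≤ 1 := fun ω => by
    rw [abs_le]
    exact ⟨by have := hg.nonneg (res Λ ω); linarith, hg.le_one _⟩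
  have hggI : ∀ r, 0 ≤ r → Integrable (fun w => gg (X r w)) μ := fun r hr =>
    integrable_comp hX.measurable hggD.measurable hggB hr
  have hvI : ∀ r, 0 ≤ r → Integrable (fun w => v (X r w)) μ := fun r hr =>
    integrable_comp hX.measurable hvD.measurable hBv hr
  have hGI : ∀ r, 0 ≤ r → Integrable (fun w => exclusionGen P gg (X r w)) μ := fun r hr =>
    integrable_comp hX.measurable (measurable_exclusionGen hP hggD) hBg hr
  set a := ∫ w in E, gg (X s w) ∂μ with ha
  have ha0 : 0 ≤ a := setIntegral_nonneg hEm fun w _ => hg.nonneg _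
  have hphi : ∀ r ∈ Set.Icc s (s + h), ∫ w in E, exclusionGen P gg (X r w) ∂μ ≤
      lam * a + K * h + δ := by
    intro r hr
    have hr0 : 0 ≤ r := h0.trans hr.1
    have e1 : ∫ w in E, exclusionGen P gg (X r w) ∂μ ≤ ∫ w in E, (v (X r w) + δ) ∂μ :=
      setIntegral_mono (hGI r hr0).integrableOn
        ((hvI r hr0).add (integrable_const δ)).integrableOn fun w => hgen _
    have e2 : ∫ w in E, (v (X r w) + δ) ∂μ = ∫ w in E, v (X r w) ∂μ + δ * μ.real E := by
      rw [integral_add (hvI r hr0).integrableOn (integrable_const δ).integrableOn]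
      simp [mul_comm]
    have e3 : δ * μ.real E ≤ δ := by
      have h3 : μ.real E ≤ 1 := measureReal_le_one
      nlinarith
    have e4 := (abs_le.1 (incr_le hP hX hvD hK h0 hr.1 hE)).2
    have e5 : K * (r - s) ≤ K * h := mul_le_mul_of_nonneg_left (by linarith [hr.2]) hK0
    have e6 : ∫ w in E, v (X s w) ∂μ ≤ lam * a := by
      rw [ha, ← integral_const_mul]
      exact setIntegral_mono (hvI s h0).integrableOn ((hggI s h0).const_mul lam).integrableOn
        fun w => hv_le _
    linarith
  have hmart := hX.martingale gg ⟨Λ, hggD⟩ s (s + h) h0 (by linarith) E hE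
  have hint : ∫ r in s..(s + h), ∫ w in E, exclusionGen P gg (X r w) ∂μ ≤
      (lam * a + K * h + δ) * h := by
    by_cases hI : IntervalIntegrable (fun r => ∫ w in E, exclusionGen P gg (X r w) ∂μ)
      volume s (s + h)
    · have := intervalIntegral.integral_mono_on (by linarith) hI
        (intervalIntegrable_const (c := lam * a + K * h + δ)) hphi
      refine this.trans (le_of_eq ?_)
      rw [intervalIntegral.integral_const, smul_eq_mul]; ring
    · rw [intervalIntegral.integral_undef hI]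
      have : 0 ≤ lam * a + K * h + δ := by positivity
      positivity
  have : ∫ w in E, gg (X (s + h) w) ∂μ ≤ a + (lam * a + K * h + δ) * h := by linarith
  refine this.trans (le_of_eq ?_)
  ring

/-- no visit to `C` before step `i` of the grid of mesh `h` -/
def noVisit (X : ℝ → Ω → I → Bool) (C : (I → Bool) → Prop) (h : ℝ) (i : ℕ) : Set Ω :=
  {w | ∀ j : ℕ, j < i → ¬ C (X (j * h) w)}

omit [DecidableEq I] [Countable I] [MeasurableSpace Ω] in
lemma noVisit_succ (X : ℝ → Ω → I → Bool) (C : (I → Bool) → Prop) (h : ℝ) (i : ℕ) :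
    noVisit X C h (i + 1) = noVisit X C h i \ {w | C (X (i * h) w)} := by
  ext w
  simp only [noVisit, Set.mem_ofPred_eq, Set.mem_sdiff]
  constructor
  · intro hw
    exact ⟨fun j hj => hw j (by omega), hw i (by omega)⟩
  · rintro ⟨h1, h2⟩ j hj
    rcases Nat.lt_succ_iff_lt_or_eq.1 hj with h | h
    · exact h1 j h
    · subst h; exact h2

omit [Countable I] [MeasurableSpace Ω] in
lemma measurableSet_noVisit {Λ : Finset I} {C : (I → Bool) → Prop}
    (hC : DepOn Λ C) {h : ℝ} (hh : 0 ≤ h) (i : ℕ) :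
    MeasurableSet[past X (i * h)] (noVisit X C h (i + 1)) := by
  have hCm : MeasurableSet {ω : I → Bool | C ω} := measurableSet_setOfPred.2 hC.measurable
  have : noVisit X C h (i + 1) = ⋂ j ∈ Set.Iio (i + 1), {w | X (j * h) w ∈ {ω | C ω}ᶜ} := by
    ext w
    simp [noVisit]
  rw [this]
  apply MeasurableSet.biInter (Set.to_countable _)
  intro j hj
  apply measurableSet_past (by positivity) _ hCm.compl
  have : (j : ℝ) ≤ i := by exact_mod_cast Nat.lt_succ_iff.1 hj
  exact mul_le_mul_of_nonneg_right this hh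

theorem excl_upper (hP : IsKernel P) (hX : IsExclusionDynamics P μ X) {Λ : Finset I}
    {C : (I → Bool) → Prop} (hC : DepOn Λ C) {lam : ℝ} (hlam : 0 < lam)
    {g : (Λ → Bool) → ℝ}
    (hg : IsPotential (rateE fun x y : Λ => P x y) exch lam (fun a => C (ext Λ a)) g)
    {δ : ℝ} (hδ : 0 ≤ δ)
    (hgen : ∀ ω, exclusionGen P (fun ω => g (res Λ ω)) ω ≤
      gen (rateE fun x y : Λ => P x y) exch g (res Λ ω) + δ) (T : ℕ) :
    μ {w | ∃ t : ℝ, 0 ≤ t ∧ t ≤ T ∧ C (X t w)} ≤
      ENNReal.ofReal (Real.exp (lam * (T + 1)) *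
        (∫ w, g (res Λ (X 0 w)) ∂μ + (T + 1) * δ)) := by
  obtain ⟨K, hK0, hK⟩ := exclusionGen_bounded hP
    (depOn_comp_res Λ (gen (rateE fun x y : Λ => P x y) exch g))
  have hCm : MeasurableSet {ω : I → Bool | C ω} := measurableSet_setOfPred.2 hC.measurable
  have hggD : DepOn Λ fun ω => g (res Λ ω) := depOn_comp_res Λ g
  have hggI : ∀ r, 0 ≤ r → Integrable (fun w => g (res Λ (X r w))) μ := fun r hr =>
    integrable_comp (f := fun ω => g (res Λ ω)) hX.measurable hggD.measurable (K := 1)
      (fun ω => by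
        rw [abs_le]
        exact ⟨by have := hg.nonneg (res Λ ω); linarith, hg.le_one _⟩) hr
  set b : ℝ := ∫ w, g (res Λ (X 0 w)) ∂μ with hb
  have hgrid : ∀ m : ℕ, μ (gridHit X C T m) ≤
      ENNReal.ofReal (Real.exp (lam * (T + 1)) * (b + (T + 1) * (δ + K * (1 / 2) ^ m))) := by
    intro m
    set h : ℝ := (1 / 2) ^ m with hh
    have hh0 : 0 < h := by positivity
    set N : ℕ := (T + 1) * 2 ^ m with hN
    have hNh : (N : ℝ) * h = T + 1 := by
      rw [hN, hh]; push_cast
      rw [mul_assoc, ← mul_pow]; norm_num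
    set a : ℕ → ℝ := fun i => ∫ w in noVisit X C h i, g (res Λ (X (i * h) w)) ∂μ with ha
    set p : ℕ → ℝ := fun i => μ.real (noVisit X C h i ∩ {w | C (X (i * h) w)}) with hp
    have hvis : ∀ i : ℕ, MeasurableSet {w | C (X (i * h) w)} := fun i =>
      hX.measurable (i * h) (by positivity) hCm
    have hrec : ∀ i, a (i + 1) ≤ (1 + lam * h) * (a i - p i) + (δ * h + K * h ^ 2) := by
      intro i
      have h1 := one_step hP hX hlam hg hδ hgen hK (s := i * h) (h := h) (by positivity) hh0.le
        (measurableSet_noVisit (X := X) hC hh0.le i)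
      have e1 : ((i + 1 : ℕ) : ℝ) * h = i * h + h := by push_cast; ring
      have e2 : ∫ w in noVisit X C h (i + 1), g (res Λ (X (i * h) w)) ∂μ ≤ a i - p i := by
        have h2 := integral_inter_add_sdiff (μ := μ) (s := noVisit X C h i) (hvis i)
          (f := fun w => g (res Λ (X (i * h) w))) (hggI (i * h) (by positivity)).integrableOn
        rw [noVisit_succ]
        have h3 : p i = ∫ w in noVisit X C h i ∩ {w | C (X (i * h) w)},
            g (res Λ (X (i * h) w)) ∂μ := by
          have hmeas : MeasurableSet (noVisit X C h i ∩ {w | C (X (i * h) w)}) := by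
            apply MeasurableSet.inter _ (hvis i)
            have : noVisit X C h i = ⋂ j ∈ Set.Iio i, {w | C (X (j * h) w)}ᶜ := by
              ext w; simp [noVisit]
            rw [this]
            exact MeasurableSet.biInter (Set.to_countable _) fun j _ => (hvis j).compl
          rw [setIntegral_congr_fun hmeas (g := fun _ => (1 : ℝ)) (fun w hw => by
            simp only
            apply hg.one
            have : C (X (i * h) w) := hw.2
            rwa [hC.factor] at this)]
          simp [hp]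
        simp only [ha]
        rw [h3]
        linarith
      simp only [ha]
      rw [e1]
      refine h1.trans ?_
      have := mul_le_mul_of_nonneg_left e2 (by positivity : 0 ≤ 1 + lam * h)
      linarith
    have hsum := rec_upper (a := a) (p := p) (q := 1 + lam * h) (e := δ * h + K * h ^ 2)
      (by nlinarith) (by positivity) (fun i => measureReal_nonneg) hrec N
    have haN : 0 ≤ a N := integral_nonneg fun w => hg.nonneg _
    have ha0 : a 0 = b := by
      simp only [ha, hb]
      have : noVisit X C h 0 = Set.univ := by ext w; simp [noVisit]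
      rw [this, setIntegral_univ]
      simp
    have hexp : (1 + lam * h) ^ N ≤ Real.exp (lam * (T + 1)) := by
      have h1 : 1 + lam * h ≤ Real.exp (lam * h) := by
        have := Real.add_one_le_exp (lam * h); linarith
      calc (1 + lam * h) ^ N ≤ (Real.exp (lam * h)) ^ N := pow_le_pow_left₀ (by positivity) h1 N
        _ = Real.exp (lam * (T + 1)) := by
            rw [← Real.exp_nat_mul, ← hNh]; ring_nf
    have hb0 : 0 ≤ b := integral_nonneg fun w => hg.nonneg _
    have hNe : (N : ℝ) * (δ * h + K * h ^ 2) = (T + 1) * (δ + K * h) := by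
      rw [← hNh]; ring
    have hreal : μ.real (gridHit X C T m) ≤
        Real.exp (lam * (T + 1)) * (b + (T + 1) * (δ + K * h)) := by
      have hsub : gridHit X C T m ⊆
          ⋃ i ∈ Finset.range N, (noVisit X C h i ∩ {w | C (X (i * h) w)}) := by
        intro w hw
        obtain ⟨i, hi, hCi⟩ := hw
        have e0 : ∀ j : ℕ, (j : ℝ) / 2 ^ m = j * h := fun j => by
          rw [hh, one_div, inv_pow, div_eq_mul_inv]
        rw [e0] at hCi
        classical
        have hex : ∃ j : ℕ, C (X (j * h) w) := ⟨i, hCi⟩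
        have h1 := Nat.find_spec hex
        have h2 : Nat.find hex ≤ i := Nat.find_min' hex hCi
        simp only [Set.mem_iUnion, Finset.mem_range]
        exact ⟨Nat.find hex, by omega, fun j hj => Nat.find_min hex hj, h1⟩
      calc μ.real (gridHit X C T m) ≤ μ.real (⋃ i ∈ Finset.range N,
            (noVisit X C h i ∩ {w | C (X (i * h) w)})) := measureReal_mono hsub (measure_ne_top _ _)
        _ ≤ ∑ i ∈ Finset.range N, p i := measureReal_biUnion_finset_le _ _
        _ ≤ (1 + lam * h) ^ N * (a 0 + N * (δ * h + K * h ^ 2)) := by linarith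
        _ ≤ _ := by
            rw [ha0, hNe]
            apply mul_le_mul_of_nonneg_right hexp
            positivity
    have h3 : μ (gridHit X C T m) = ENNReal.ofReal (μ.real (gridHit X C T m)) := by
      rw [ofReal_measureReal (measure_ne_top _ _)]
    rw [h3]
    exact ENNReal.ofReal_le_ofReal hreal
  refine (measure_hit_le hX.cadlag hC T).trans ?_
  apply iSup_le
  intro m
  have hlim : Tendsto (fun m' : ℕ => ENNReal.ofReal (Real.exp (lam * (T + 1)) *
      (b + (T + 1) * (δ + K * (1 / 2) ^ m')))) atTop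
      (𝓝 (ENNReal.ofReal (Real.exp (lam * (T + 1)) * (b + (T + 1) * δ)))) := by
    apply ENNReal.tendsto_ofReal
    have h1 : Tendsto (fun m' : ℕ => (1 / 2 : ℝ) ^ m') atTop (𝓝 0) :=
      tendsto_pow_atTop_nhds_zero_of_lt_one (by norm_num) (by norm_num)
    have h2 : Tendsto (fun m' : ℕ => Real.exp (lam * (T + 1)) *
      (b + (T + 1) * (δ + K * (1 / 2) ^ m'))) atTop
      (𝓝 (Real.exp (lam * (T + 1)) * (b + (T + 1) * (δ + K * 0)))) :=
      ((((h1.const_mul K).const_add δ).const_mul _).const_add b).const_mul _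
    simpa using h2
  refine ge_of_tendsto hlim ?_
  filter_upwards [eventually_ge_atTop m] with m' hm'
  exact (measure_mono (gridHit_mono X C T hm')).trans (hgrid m')

end

section

open MeasureTheory Filter Topology

/-- transition probabilities of one bit -/
noncomputable def ptrans (h : ℝ) (b b' : Bool) : ℝ :=
  if b = b' then (1 + Real.exp (-h)) / 2 else (1 - Real.exp (-h)) / 2

lemma ptrans_nonneg {h : ℝ} (hh : 0 ≤ h) (b b' : Bool) : 0 ≤ ptrans h b b' := by
  unfold ptrans
  have h1 : Real.exp (-h) ≤ 1 := Real.exp_le_one_iff.2 (by linarith)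
  have h2 := Real.exp_pos (-h)
  split_ifs <;> linarith

/-- derivative of the transition probability at `0` -/
noncomputable def dtrans (b b' : Bool) : ℝ := if b = b' then -1 / 2 else 1 / 2

lemma hasDerivAt_ptrans (b b' : Bool) : HasDerivAt (fun h => ptrans h b b') (dtrans b b') 0 := by
  unfold ptrans dtrans
  have h1 : HasDerivAt (fun h : ℝ => Real.exp (-h)) (-1) 0 := by
    have := (Real.hasDerivAt_exp (-0 : ℝ)).comp 0 (hasDerivAt_neg (0 : ℝ))
    simpa [Function.comp_def] using this
  by_cases h : b = b'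
  · simp only [h, if_true]
    have := (h1.const_add 1).div_const 2
    simpa using this
  · simp only [h, if_false]
    have := (h1.const_sub 1).div_const 2
    simpa using this

section
variable {V : Type*} [Fintype V] [DecidableEq V]

/-- the transition operator of independent bits -/
noncomputable def Qop (h : ℝ) (u : (V → Bool) → ℝ) (a : V → Bool) : ℝ :=
  ∑ b : V → Bool, (∏ x, ptrans h (a x) (b x)) * u b

lemma ptrans_zero (b b' : Bool) : ptrans 0 b b' = if b = b' then 1 else 0 := by
  unfold ptrans; split_ifs <;> simp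

lemma Qop_zero (u : (V → Bool) → ℝ) (a : V → Bool) : Qop 0 u a = u a := by
  unfold Qop
  rw [Finset.sum_eq_single a]
  · simp [ptrans_zero]
  · intro b _ hb
    obtain ⟨x, hx⟩ : ∃ x, a x ≠ b x := by
      by_contra hcon
      push Not at hcon
      exact hb (funext fun x => (hcon x).symm)
    have : ∏ x, ptrans 0 (a x) (b x) = 0 :=
      Finset.prod_eq_zero (Finset.mem_univ x) (by rw [ptrans_zero, if_neg hx])
    rw [this, zero_mul]
  · intro h; exact absurd (Finset.mem_univ _) h

lemma hasDerivAt_Qop (u : (V → Bool) → ℝ) (a : V → Bool) :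
    HasDerivAt (fun h => Qop h u a) (gen (rateO (V := V)) flipAt u a) 0 := by
  have h1 : ∀ b : V → Bool, HasDerivAt (fun h => ∏ x, ptrans h (a x) (b x))
      (∑ x, (∏ y ∈ Finset.univ.erase x, ptrans 0 (a y) (b y)) • dtrans (a x) (b x)) 0 := by
    intro b
    have := HasDerivAt.fun_finsetProd (u := (Finset.univ : Finset V)) (x := (0 : ℝ))
      (f := fun x h => ptrans h (a x) (b x)) (f' := fun x => dtrans (a x) (b x))
      (fun x _ => hasDerivAt_ptrans (a x) (b x))
    exact this
  have h2 : HasDerivAt (fun h => Qop h u a) (∑ b : V → Bool,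
      (∑ x, (∏ y ∈ Finset.univ.erase x, ptrans 0 (a y) (b y)) • dtrans (a x) (b x)) * u b) 0 := by
    unfold Qop
    exact HasDerivAt.fun_sum fun b _ => (h1 b).mul_const (u b)
  have h3 : (∑ b : V → Bool,
      (∑ x, (∏ y ∈ Finset.univ.erase x, ptrans 0 (a y) (b y)) • dtrans (a x) (b x)) * u b)
      = gen (rateO (V := V)) flipAt u a := by
    unfold gen
    simp_rw [Finset.sum_mul]
    rw [Finset.sum_comm]
    apply Finset.sum_congr rfl
    intro x _
    have hne : a ≠ flipAt x a := by
      intro h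
      have := congrFun h x
      unfold flipAt at this
      rw [Function.update_self] at this
      revert this; cases a x <;> simp
    rw [Finset.sum_eq_add a (flipAt x a) hne]
    · have e1 : ∏ y ∈ Finset.univ.erase x, ptrans 0 (a y) (a y) = 1 :=
        Finset.prod_eq_one fun y _ => by rw [ptrans_zero, if_pos rfl]
      have e2 : ∏ y ∈ Finset.univ.erase x, ptrans 0 (a y) (flipAt x a y) = 1 :=
        Finset.prod_eq_one fun y hy => by
          unfold flipAt
          rw [Function.update_of_ne (Finset.ne_of_mem_erase hy), ptrans_zero, if_pos rfl]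
      have e3 : dtrans (a x) (a x) = -1 / 2 := by simp [dtrans]
      have e4 : dtrans (a x) (flipAt x a x) = 1 / 2 := by
        unfold flipAt
        rw [Function.update_self]
        unfold dtrans
        cases a x <;> simp
      rw [e1, e2, e3, e4]
      unfold rateO
      simp only [smul_eq_mul]
      ring
    · intro b _ hb
      obtain ⟨y, hyx, hy⟩ : ∃ y, y ≠ x ∧ a y ≠ b y := by
        by_contra hcon
        push Not at hcon
        by_cases hbx : b x = a x
        · apply hb.1
          funext y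
          by_cases h : y = x
          · rw [h, hbx]
          · exact (hcon y h).symm
        · apply hb.2
          funext y
          unfold flipAt
          by_cases h : y = x
          · subst h
            rw [Function.update_self]
            revert hbx; cases b y <;> cases a y <;> simp
          · rw [Function.update_of_ne h]; exact (hcon y h).symm
      have : ∏ y ∈ Finset.univ.erase x, ptrans 0 (a y) (b y) = 0 :=
        Finset.prod_eq_zero (Finset.mem_erase.2 ⟨hyx, Finset.mem_univ y⟩)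
          (by rw [ptrans_zero, if_neg hy])
      rw [this]; simp
    · intro h; exact absurd (Finset.mem_univ _) h
    · intro h; exact absurd (Finset.mem_univ _) h
  rw [h3] at h2
  exact h2

lemma Qop_expansion (u : (V → Bool) → ℝ) {ε : ℝ} (hε : 0 < ε) :
    ∃ h0 > 0, ∀ h, 0 < h → h < h0 → ∀ a,
      u a + h * gen (rateO (V := V)) flipAt u a - ε * h ≤ Qop h u a := by
  have h1 : ∀ a : V → Bool, ∀ᶠ h in 𝓝 (0 : ℝ),
      ‖Qop h u a - Qop 0 u a - (h - 0) • gen (rateO (V := V)) flipAt u a‖ ≤ ε * ‖h - 0‖ := by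
    intro a
    exact (hasDerivAt_iff_isLittleO.1 (hasDerivAt_Qop u a)).def hε
  rw [← Filter.eventually_all] at h1
  rw [Metric.eventually_nhds_iff] at h1
  obtain ⟨h0, hh0, h2⟩ := h1
  refine ⟨h0, hh0, fun h hpos hlt a => ?_⟩
  have h3 := h2 (y := h) (by rw [Real.dist_eq, sub_zero, abs_of_pos hpos]; exact hlt) a
  rw [Qop_zero, sub_zero, Real.norm_eq_abs, Real.norm_eq_abs, abs_of_pos hpos, abs_le,
    smul_eq_mul] at h3
  linarith [h3.1]

end

lemma integral_comp_finite {Ω β : Type*} [MeasurableSpace Ω] {μ : Measure Ω} [IsFiniteMeasure μ]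
    [Fintype β] [MeasurableSpace β] [MeasurableSingletonClass β] {Y : Ω → β} (hY : Measurable Y)
    (F : β → ℝ) : ∫ w, F (Y w) ∂μ = ∑ y, μ.real {w | Y w = y} * F y := by
  rw [← integral_map (f := F) hY.aemeasurable (measurable_of_finite F).aestronglyMeasurable]
  have : IsFiniteMeasure (μ.map Y) := by infer_instance
  rw [integral_fintype (Integrable.of_finite)]
  apply Finset.sum_congr rfl
  intro y _
  rw [smul_eq_mul, map_measureReal_apply hY (measurableSet_singleton y)]
  rfl


section
variable {I : Type*} [DecidableEq I] {Ω : Type*} [MeasurableSpace Ω]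
  {μ : Measure Ω} [IsProbabilityMeasure μ] {η : ℝ → Ω → I → Bool}

/-- the trajectory along the grid of mesh `h`, up to step `n` -/
def traj (η : ℝ → Ω → I → Bool) (Λ : Finset I) (h : ℝ) (n : ℕ) (w : Ω) :
    Fin (n + 1) → (Λ → Bool) := fun i => res Λ (η ((i : ℕ) * h) w)

omit [DecidableEq I] [IsProbabilityMeasure μ] in
lemma measurable_traj (hη : IsDynamicalPercolation μ η) (Λ : Finset I) {h : ℝ} (hh : 0 ≤ h)
    (n : ℕ) : Measurable (traj η Λ h n) := by
  unfold traj
  rw [measurable_pi_iff]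
  intro i
  exact (measurable_res Λ).comp (hη.measurable _ (by positivity))

/-- weights of the trajectories -/
noncomputable def wt {Λ : Finset I} (h : ℝ) (n : ℕ) (α : Fin (n + 1) → (Λ → Bool)) : ℝ :=
  ∏ x : Λ, ((1 / 2) * ∏ i : Fin n, ptrans h (α i.castSucc x) (α i.succ x))

omit [DecidableEq I] in
lemma wt_nonneg {Λ : Finset I} {h : ℝ} (hh : 0 ≤ h) (n : ℕ) (α : Fin (n + 1) → (Λ → Bool)) :
    0 ≤ wt h n α :=
  Finset.prod_nonneg fun _ _ => mul_nonneg (by norm_num)
    (Finset.prod_nonneg fun _ _ => ptrans_nonneg hh _ _)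

lemma measure_traj (hη : IsDynamicalPercolation μ η) (Λ : Finset I) {h : ℝ} (hh : 0 ≤ h)
    (n : ℕ) (α : Fin (n + 1) → (Λ → Bool)) :
    μ.real {w | traj η Λ h n w = α} = wt h n α := by
  have h1 := hη.fdd Λ n (fun i => (i : ℕ) * h) (fun x i => ext Λ (α i) x) (by simp)
    (fun i j hij => by
      have : ((i : ℕ) : ℝ) ≤ (j : ℕ) := by exact_mod_cast hij
      exact mul_le_mul_of_nonneg_right this hh)
  have hset : {w | traj η Λ h n w = α} =
      {w | ∀ x ∈ Λ, ∀ i : Fin (n + 1), η ((i : ℕ) * h) w x = ext Λ (α i) x} := by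
    ext w
    simp only [Set.mem_ofPred_eq]
    constructor
    · intro hw x hx i
      have h2 : η ((i : ℕ) * h) w x = α i ⟨x, hx⟩ := congrFun (congrFun hw i) ⟨x, hx⟩
      simp [ext, hx, h2]
    · intro hw
      funext i x
      have := hw x x.2 i
      simp only [ext, x.2, dif_pos] at this
      exact this
  rw [measureReal_def, hset, h1, ENNReal.toReal_ofReal]
  · unfold wt
    rw [← Finset.prod_coe_sort Λ]
    apply Finset.prod_congr rfl
    intro x _
    congr 1
    apply Finset.prod_congr rfl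
    intro i _
    unfold ptrans
    have e1 : (((i.succ : Fin (n + 1)) : ℕ) : ℝ) * h - ((i.castSucc : Fin (n + 1)) : ℕ) * h = h := by
      simp; ring
    have e2 : ∀ j : Fin (n + 1), ext Λ (α j) x = α j x := fun j => by simp [ext]
    rw [e1, e2, e2]
  · apply Finset.prod_nonneg
    intro x _
    apply mul_nonneg (by norm_num)
    apply Finset.prod_nonneg
    intro i _
    have e1 : (((i.succ : Fin (n + 1)) : ℕ) : ℝ) * h - ((i.castSucc : Fin (n + 1)) : ℕ) * h = h := by
      simp; ring
    rw [e1]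
    exact ptrans_nonneg hh _ _

omit [DecidableEq I] in
lemma wt_succ {Λ : Finset I} (h : ℝ) (n : ℕ) (α : Fin (n + 2) → (Λ → Bool)) :
    wt h (n + 1) α = wt h n (fun i => α i.castSucc) *
      ∏ x, ptrans h (α (Fin.last n).castSucc x) (α (Fin.last (n + 1)) x) := by
  unfold wt
  rw [← Finset.prod_mul_distrib]
  apply Finset.prod_congr rfl
  intro x _
  rw [Fin.prod_univ_castSucc]
  simp only [Fin.succ_last]
  rw [mul_assoc]
  rfl

/-- the Markov property along the grid -/
lemma markov_grid (hη : IsDynamicalPercolation μ η) (Λ : Finset I) {h : ℝ} (hh : 0 ≤ h)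
    (n : ℕ) (φ : (Fin (n + 1) → (Λ → Bool)) → ℝ) (u : (Λ → Bool) → ℝ) :
    ∫ w, φ (traj η Λ h n w) * u (res Λ (η (((n + 1 : ℕ) : ℝ) * h) w)) ∂μ =
      ∫ w, φ (traj η Λ h n w) * Qop h u (res Λ (η ((n : ℝ) * h) w)) ∂μ := by
  have h1 := integral_comp_finite (μ := μ) (measurable_traj hη Λ hh (n + 1))
    (fun α => φ (fun i => α i.castSucc) * u (α (Fin.last (n + 1))))
  have h2 := integral_comp_finite (μ := μ) (measurable_traj hη Λ hh n)
    (fun α => φ α * Qop h u (α (Fin.last n)))
  have e1 : ∀ w, φ (traj η Λ h n w) * u (res Λ (η (((n + 1 : ℕ) : ℝ) * h) w)) =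
      φ (fun i => traj η Λ h (n + 1) w i.castSucc) * u (traj η Λ h (n + 1) w (Fin.last (n + 1))) := by
    intro w
    rfl
  have e2 : ∀ w, φ (traj η Λ h n w) * Qop h u (res Λ (η ((n : ℝ) * h) w)) =
      φ (traj η Λ h n w) * Qop h u (traj η Λ h n w (Fin.last n)) := by
    intro w
    rfl
  simp_rw [e1, e2]
  rw [h1, h2]
  simp_rw [measure_traj hη Λ hh]
  rw [← (Fin.snocEquiv (fun _ : Fin (n + 2) => (Λ → Bool))).sum_comp, Fintype.sum_prod_type_right]
  apply Finset.sum_congr rfl
  intro α _
  unfold Qop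
  rw [Finset.mul_sum, Finset.mul_sum]
  apply Finset.sum_congr rfl
  intro b _
  rw [wt_succ]
  simp only [Fin.snocEquiv_apply, Fin.snoc_last, Fin.snoc_castSucc]
  ring

end

end

section

open MeasureTheory Filter Topology

variable {I : Type*} [DecidableEq I] {Ω : Type*} [MeasurableSpace Ω]
  {μ : Measure Ω} [IsProbabilityMeasure μ] {η : ℝ → Ω → I → Bool}

lemma measurableSet_visit (hη : IsDynamicalPercolation μ η) {Λ : Finset I}
    {C : (I → Bool) → Prop} (hC : DepOn Λ C) {t : ℝ} (ht : 0 ≤ t) :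
    MeasurableSet {w | C (η t w)} :=
  hη.measurable t ht (measurableSet_setOfPred.2 hC.measurable)

lemma measurableSet_noVisit' (hη : IsDynamicalPercolation μ η) {Λ : Finset I}
    {C : (I → Bool) → Prop} (hC : DepOn Λ C) {h : ℝ} (hh : 0 ≤ h) (i : ℕ) :
    MeasurableSet (noVisit η C h i) := by
  have : noVisit η C h i = ⋂ j ∈ Set.Iio i, {w | C (η (j * h) w)}ᶜ := by
    ext w; simp [noVisit]
  rw [this]
  exact MeasurableSet.biInter (Set.to_countable _) fun j _ =>
    (measurableSet_visit hη hC (by positivity)).compl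

open Classical in
theorem ord_lower (hη : IsDynamicalPercolation μ η) {Λ : Finset I}
    {C : (I → Bool) → Prop} (hC : DepOn Λ C) {lam : ℝ} (hlam : 0 < lam)
    {u : (Λ → Bool) → ℝ}
    (hu : IsPotential (rateO (V := Λ)) flipAt lam (fun a => C (ext Λ a)) u) (R : ℕ)
    {ε : ℝ} (hε : 0 < ε) :
    ∃ m, ∫ w, u (res Λ (η 0 w)) ∂μ - 1 / (1 + lam * (R + 1)) - ε ≤ μ.real (gridHit η C R m) := by
  have hR : (0 : ℝ) < R + 1 := by positivity
  obtain ⟨h0, hh0, hexp⟩ := Qop_expansion u (ε := ε / (R + 1)) (by positivity)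
  obtain ⟨m, hm⟩ := exists_pow_lt_of_lt_one hh0 (by norm_num : (1 / 2 : ℝ) < 1)
  refine ⟨m, ?_⟩
  set h : ℝ := (1 / 2) ^ m with hh
  have hpos : 0 < h := by positivity
  set N : ℕ := (R + 1) * 2 ^ m with hN
  have hNh : (N : ℝ) * h = R + 1 := by
    rw [hN, hh]; push_cast
    rw [mul_assoc, ← mul_pow]; norm_num
  set b : ℝ := ∫ w, u (res Λ (η 0 w)) ∂μ with hb
  have huI : ∀ t : ℝ, 0 ≤ t → Integrable (fun w => u (res Λ (η t w))) μ := fun t ht =>
    integrable_comp (f := fun ω => u (res Λ ω)) hη.measurable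
      (depOn_comp_res Λ u).measurable (K := 1) (fun ω => by
        rw [abs_le]
        exact ⟨by have := hu.nonneg (res Λ ω); linarith, hu.le_one _⟩) ht
  have hQI : ∀ t : ℝ, 0 ≤ t → Integrable (fun w => Qop h u (res Λ (η t w))) μ := fun t ht => by
    obtain ⟨B, _, hB⟩ := (depOn_comp_res Λ (Qop h u)).bounded
    exact integrable_comp (f := fun ω => Qop h u (res Λ ω)) hη.measurable
      (depOn_comp_res Λ (Qop h u)).measurable hB ht
  set a : ℕ → ℝ := fun i => ∫ w in noVisit η C h i, u (res Λ (η (i * h) w)) ∂μ with ha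
  set p : ℕ → ℝ := fun i => μ.real (noVisit η C h i ∩ {w | C (η (i * h) w)}) with hp
  have hvis : ∀ i : ℕ, MeasurableSet {w | C (η (i * h) w)} := fun i =>
    measurableSet_visit hη hC (by positivity)
  have hnv : ∀ i : ℕ, MeasurableSet (noVisit η C h i) := fun i =>
    measurableSet_noVisit' hη hC hpos.le i
  have hrec : ∀ i, (1 + lam * h) * (a i - p i) - ε / (R + 1) * h ≤ a (i + 1) := by
    intro i
    -- the indicator of `noVisit (i+1)` as a function of the trajectory
    set φ : (Fin (i + 1) → (Λ → Bool)) → ℝ := fun α =>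
      if ∀ j, ¬ C (ext Λ (α j)) then 1 else 0 with hφ
    have hφ2 : ∀ w, φ (traj η Λ h i w) = Set.indicator (noVisit η C h (i + 1)) (fun _ => 1) w := by
      intro w
      simp only [hφ, Set.indicator_apply]
      congr 1
      apply propext
      constructor
      · intro h1 j hj
        have := h1 ⟨j, hj⟩
        rw [hC.factor]
        exact this
      · intro h1 j
        have := h1 j j.2
        rw [hC.factor] at this
        exact this
    have h3 := markov_grid hη Λ hpos.le i φ u
    have e1 : ∀ f : Ω → ℝ, ∫ w, φ (traj η Λ h i w) * f w ∂μ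
        = ∫ w in noVisit η C h (i + 1), f w ∂μ := by
      intro f
      rw [← integral_indicator (hnv (i + 1))]
      congr 1
      funext w
      rw [hφ2, Set.indicator_apply, Set.indicator_apply]
      split_ifs <;> simp
    rw [e1, e1] at h3
    have e2 : ∫ w in noVisit η C h (i + 1), u (res Λ (η (i * h) w)) ∂μ = a i - p i := by
      have h2 := integral_inter_add_sdiff (μ := μ) (s := noVisit η C h i) (hvis i)
        (f := fun w => u (res Λ (η (i * h) w))) (huI (i * h) (by positivity)).integrableOn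
      rw [noVisit_succ]
      have h3 : p i = ∫ w in noVisit η C h i ∩ {w | C (η (i * h) w)},
          u (res Λ (η (i * h) w)) ∂μ := by
        rw [setIntegral_congr_fun ((hnv i).inter (hvis i)) (g := fun _ => (1 : ℝ)) (fun w hw => by
          simp only
          apply hu.one
          have : C (η (i * h) w) := hw.2
          rwa [hC.factor] at this)]
        simp [hp]
      simp only [ha]
      rw [h3]
      linarith
    simp only [ha] at *
    rw [h3, ← e2]
    have e3 : ∫ w in noVisit η C h (i + 1),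
        ((1 + lam * h) * u (res Λ (η (i * h) w)) - ε / (R + 1) * h) ∂μ ≤
        ∫ w in noVisit η C h (i + 1), Qop h u (res Λ (η (i * h) w)) ∂μ := by
      apply setIntegral_mono_on
        (((huI (i * h) (by positivity)).const_mul _).sub (integrable_const _)).integrableOn
        (hQI (i * h) (by positivity)).integrableOn (hnv (i + 1))
      intro w hw
      have h4 := hexp h hpos hm (res Λ (η (i * h) w))
      have h5 : ¬ C (ext Λ (res Λ (η (i * h) w))) := by
        have := hw i (by omega)
        rwa [hC.factor] at this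
      rw [hu.harm _ h5] at h4
      show (1 + lam * h) * u (res Λ (η (i * h) w)) - ε / (R + 1) * h ≤
        Qop h u (res Λ (η (i * h) w))
      linarith
    rw [integral_sub ((huI (i * h) (by positivity)).const_mul _).integrableOn
      (integrable_const _).integrableOn, integral_const_mul] at e3
    have e4 : ∫ w in noVisit η C h (i + 1), ε / (R + 1) * h ∂μ ≤ ε / (R + 1) * h := by
      rw [setIntegral_const, smul_eq_mul]
      have : μ.real (noVisit η C h (i + 1)) ≤ 1 := measureReal_le_one
      have h6 : 0 ≤ ε / (R + 1) * h := by positivity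
      nlinarith
    linarith
  have hsum := rec_lower (a := a) (p := p) (q := 1 + lam * h) (e := ε / (R + 1) * h)
    (by nlinarith) (by positivity) (fun i => measureReal_nonneg) (fun i => by
      simp only [ha]
      calc ∫ w in noVisit η C h i, u (res Λ (η (i * h) w)) ∂μ
          ≤ ∫ w in noVisit η C h i, (1 : ℝ) ∂μ :=
            setIntegral_mono (huI (i * h) (by positivity)).integrableOn
              (integrable_const _).integrableOn fun w => hu.le_one _
        _ ≤ 1 := by
            simp only [integral_const, smul_eq_mul, mul_one]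
            simp only [measureReal_restrict_apply_univ]
            exact measureReal_le_one) hrec N
  have ha0 : a 0 = b := by
    simp only [ha, hb]
    have : noVisit η C h 0 = Set.univ := by ext w; simp [noVisit]
    rw [this, setIntegral_univ]
    simp
  have hbern : (1 / (1 + lam * h)) ^ N ≤ 1 / (1 + lam * (R + 1)) := by
    rw [one_div_pow]
    apply one_div_le_one_div_of_le (by positivity)
    have h1 := one_add_mul_le_pow (a := lam * h) (by nlinarith) N
    calc 1 + lam * (R + 1) = 1 + N * (lam * h) := by rw [← hNh]; ring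
      _ ≤ _ := h1
  have hNe : (N : ℝ) * (ε / (R + 1) * h) = ε := by
    have : (N : ℝ) * (ε / (R + 1) * h) = ε / (R + 1) * (N * h) := by ring
    rw [this, hNh]; field_simp
  have hunion : ∑ i ∈ Finset.range N, p i ≤ μ.real (gridHit η C R m) := by
    have h1 : ∑ i ∈ Finset.range N, p i =
        μ.real (⋃ i ∈ Finset.range N, (noVisit η C h i ∩ {w | C (η (i * h) w)})) := by
      rw [measureReal_biUnion_finset]
      · intro i _ j _ hij
        rw [Function.onFun, Set.disjoint_left]
        rintro w ⟨h1, h2⟩ ⟨h3, h4⟩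
        rcases lt_or_gt_of_ne hij with h | h
        · exact h3 i h h2
        · exact h1 j h h4
      · intro i _; exact (hnv i).inter (hvis i)
    rw [h1]
    apply measureReal_mono _ (measure_ne_top _ _)
    intro w hw
    simp only [Set.mem_iUnion, Finset.mem_range] at hw
    obtain ⟨i, hi, _, hCi⟩ := hw
    refine ⟨i, hi, ?_⟩
    have e0 : (i : ℝ) / 2 ^ m = i * h := by
      rw [hh, one_div, inv_pow, div_eq_mul_inv]
    rw [e0]; exact hCi
  rw [ha0, hNe] at hsum
  linarith

end

section

open MeasureTheory Filter Topology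

variable {I : Type*} [DecidableEq I] {Ω Ω' : Type*} [MeasurableSpace Ω]
  [MeasurableSpace Ω'] {μ : Measure Ω} [IsProbabilityMeasure μ] {μ' : Measure Ω'}
  [IsProbabilityMeasure μ']

omit [DecidableEq I] in
lemma fairCoins_res (Λ : Finset I) (a : Λ → Bool) :
    (fairCoins I).real {ω | res Λ ω = a} = (1 / 2) ^ Λ.card := by
  classical
  have hset : {ω : I → Bool | res Λ ω = a} =
      Set.pi (Λ : Set I) (fun x => {ext Λ a x}) := by
    ext ω
    simp only [Set.mem_ofPred_eq, Set.mem_pi, Set.mem_singleton_iff]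
    constructor
    · intro h x hx
      have h2 : ω x = a ⟨x, hx⟩ := congrFun h ⟨x, hx⟩
      simp only [ext]
      rw [dif_pos (by exact_mod_cast hx)]
      exact h2
    · intro h
      funext x
      have := h x x.2
      simp only [ext] at this
      rw [dif_pos x.2] at this
      exact this
  rw [measureReal_def, hset, fairCoins, Measure.infinitePi_pi _ (fun _ _ => measurableSet_singleton _)]
  have h1 : ∀ b : Bool, (PMF.uniformOfFintype Bool).toMeasure {b} = 2⁻¹ := by
    intro b
    rw [PMF.toMeasure_apply_singleton _ _ (measurableSet_singleton b)]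
    simp
  simp_rw [h1]
  rw [Finset.prod_const, ENNReal.toReal_pow]
  norm_num

lemma excl_init {P : I → I → ℝ} {X : ℝ → Ω → I → Bool} (hX : IsExclusionDynamics P μ X)
    (Λ : Finset I) (f : (Λ → Bool) → ℝ) :
    ∫ w, f (res Λ (X 0 w)) ∂μ = (1 / 2) ^ Λ.card * ∑ a, f a := by
  have h1 := integral_comp_finite (μ := μ)
    ((measurable_res Λ).comp (hX.measurable 0 le_rfl)) f
  simp only [Function.comp_apply] at h1
  rw [h1, Finset.mul_sum]
  apply Finset.sum_congr rfl
  intro a _
  congr 1
  rw [← fairCoins_res Λ a, ← hX.initial, map_measureReal_apply (hX.measurable 0 le_rfl)]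
  · rfl
  · exact measurable_res Λ (measurableSet_singleton a)

lemma ord_marginal {η : ℝ → Ω' → I → Bool} (hη : IsDynamicalPercolation μ' η)
    (Λ : Finset I) {t : ℝ} (ht : 0 ≤ t) (a : Λ → Bool) :
    μ'.real {w | res Λ (η t w) = a} = (1 / 2) ^ Λ.card := by
  have h1 := hη.fdd Λ 0 (fun _ => t) (fun x _ => ext Λ a x) ht (fun _ _ _ => le_rfl)
  have hset : {w | res Λ (η t w) = a} =
      {w | ∀ x ∈ Λ, ∀ _ : Fin 1, η t w x = ext Λ a x} := by
    ext w
    simp only [Set.mem_ofPred_eq]
    constructor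
    · intro h x hx _
      have h2 : η t w x = a ⟨x, hx⟩ := congrFun h ⟨x, hx⟩
      simp [ext, hx, h2]
    · intro h
      funext x
      have := h x x.2 0
      simp only [ext, x.2, dif_pos] at this
      exact this
  rw [measureReal_def, hset, h1]
  simp

lemma ord_init {η : ℝ → Ω' → I → Bool} (hη : IsDynamicalPercolation μ' η)
    (Λ : Finset I) (f : (Λ → Bool) → ℝ) :
    ∫ w, f (res Λ (η 0 w)) ∂μ' = (1 / 2) ^ Λ.card * ∑ a, f a := by
  have h1 := integral_comp_finite (μ := μ')
    ((measurable_res Λ).comp (hη.measurable 0 le_rfl)) f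
  simp only [Function.comp_apply] at h1
  rw [h1, Finset.mul_sum]
  apply Finset.sum_congr rfl
  intro a _
  rw [ord_marginal hη Λ le_rfl a]

/-- the comparison for cylinder sets -/
theorem cylinder_bound [Countable I] {P : I → I → ℝ} (hP : IsKernel P) {M : ℝ} (hM0 : 0 ≤ M)
    (hM : ∀ x, Summable (P x) ∧ ∑' y, P x y ≤ M) {X : ℝ → Ω → I → Bool}
    (hX : IsExclusionDynamics P μ X) {η : ℝ → Ω' → I → Bool}
    (hη : IsDynamicalPercolation μ' η) {Λ : Finset I} {C : (I → Bool) → Prop} (hC : DepOn Λ C)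
    (T R : ℕ) :
    μ {w | ∃ t : ℝ, 0 ≤ t ∧ t ≤ T ∧ C (X t w)} ≤
      ENNReal.ofReal (Real.exp ((2 * M + 1) * (T + 1)) * ((1 + 4 * M) *
        (μ'.real (⋃ m, gridHit η C R m) + 1 / (1 + (2 * M + 1) * (R + 1))))) := by
  set lam : ℝ := 2 * M + 1 with hlam
  have hlam0 : 0 < lam := by rw [hlam]; linarith
  set hit : ℝ := μ'.real (⋃ m, gridHit η C R m) with hhit
  set rr : ℝ := 1 / (1 + lam * (R + 1)) with hrr
  obtain ⟨H, hH0, hH1, hHs, hHsup⟩ := exists_H P hP.nonneg hP.symm hM0 hM Λ
  -- the bound with an error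
  have main : ∀ ε : ℝ, 0 < ε → μ {w | ∃ t : ℝ, 0 ≤ t ∧ t ≤ T ∧ C (X t w)} ≤
      ENNReal.ofReal (Real.exp (lam * (T + 1)) * ((1 + 4 * M) * (hit + rr + ε) + (T + 1) * ε)) := by
    intro ε hε
    obtain ⟨Λ', hΛ, hrem⟩ := exists_volume hP hH0 hHs Λ hε
    have hC' : DepOn Λ' C := hC.mono hΛ
    set P' : Λ' → Λ' → ℝ := fun x y => P x y with hP'
    have hP'0 : ∀ x y, 0 ≤ P' x y := fun x y => hP.nonneg _ _
    have hP's : ∀ x y, P' x y = P' y x := fun x y => hP.symm _ _
    have hP'M : ∀ x, ∑ y, P' x y ≤ M := by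
      intro x
      have h1 := (hM x.1).1.sum_le_tsum Λ' (fun y _ => hP.nonneg _ _)
      rw [← Finset.sum_coe_sort Λ'] at h1
      exact h1.trans (hM x.1).2
    have hrate : ∀ p, 0 ≤ rateE P' p := fun p => by
      unfold rateE; have := hP'0 p.1 p.2; linarith
    obtain ⟨g, hg⟩ := exists_potential (rateE P') exch exch_exch hrate hlam0
      (fun a => C (ext Λ' a))
    obtain ⟨u, hu⟩ := exists_potential (rateO (V := Λ')) flipAt flipAt_flipAt
      (fun _ => by unfold rateO; norm_num) hlam0 (fun a => C (ext Λ' a))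
    have hcomp := potential_compare P' hP'0 hP's hM0 hP'M hlam0 hg hu
    have hgrad : ∀ (x : Λ') a, |g (flipAt x a) - g a| ≤ H x := by
      apply grad_le P' hP'0 hP's hlam0 hg (fun x => x.1 ∈ Λ) _ (fun x => H x)
        (fun x => hH0 x) (fun x hx => hH1 x hx)
      · intro x
        have := hHsup x.1 Λ'
        rw [← Finset.sum_coe_sort Λ'] at this
        exact this
      · intro x hx a
        have : C (ext Λ' (flipAt x a)) = C (ext Λ' a) := by
          apply hC
          intro y hy
          have hyx : y ≠ x.1 := fun h => hx (h ▸ hy)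
          simp only [ext]
          split_ifs with h
          · unfold flipAt
            rw [Function.update_of_ne (fun h' => hyx (congrArg Subtype.val h'))]
          · rfl
        rw [this]
    have hgen : ∀ ω, exclusionGen P (fun ω => g (res Λ' ω)) ω ≤
        gen (rateE P') exch g (res Λ' ω) + ε := fun ω =>
      (gen_split hP Λ' g hH0 hHs hgrad ω).trans (by linarith)
    have h1 := excl_upper hP hX hC' hlam0 hg hε.le hgen T
    have h2 := excl_init hX Λ' g
    have h3 := ord_init hη Λ' u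
    obtain ⟨m, hm⟩ := ord_lower hη hC' hlam0 hu R hε
    have h4 : μ'.real (gridHit η C R m) ≤ hit :=
      measureReal_mono (Set.subset_iUnion _ m) (measure_ne_top _ _)
    refine h1.trans (ENNReal.ofReal_le_ofReal ?_)
    apply mul_le_mul_of_nonneg_left _ (Real.exp_pos _).le
    have h5 : ∫ w, g (res Λ' (X 0 w)) ∂μ ≤ (1 + 4 * M) * ∫ w, u (res Λ' (η 0 w)) ∂μ' := by
      rw [h2, h3]
      have : (0 : ℝ) ≤ (1 / 2) ^ Λ'.card := by positivity
      calc (1 / 2) ^ Λ'.card * ∑ a, g a ≤ (1 / 2) ^ Λ'.card * ((1 + 4 * M) * ∑ a, u a) :=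
            mul_le_mul_of_nonneg_left hcomp this
        _ = _ := by ring
    have h6 : (1 + 4 * M) * ∫ w, u (res Λ' (η 0 w)) ∂μ' ≤ (1 + 4 * M) * (hit + rr + ε) := by
      apply mul_le_mul_of_nonneg_left _ (by linarith)
      linarith
    linarith
  have hlim : Tendsto (fun ε : ℝ => ENNReal.ofReal (Real.exp (lam * (T + 1)) *
      ((1 + 4 * M) * (hit + rr + ε) + (T + 1) * ε))) (𝓝[>] 0)
      (𝓝 (ENNReal.ofReal (Real.exp (lam * (T + 1)) * ((1 + 4 * M) * (hit + rr))))) := by
    apply ENNReal.tendsto_ofReal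
    have hc : Continuous fun ε : ℝ => Real.exp (lam * (T + 1)) *
      ((1 + 4 * M) * (hit + rr + ε) + (T + 1) * ε) := by fun_prop
    have := hc.tendsto 0
    simp only [add_zero, mul_zero] at this
    exact this.mono_left nhdsWithin_le_nhds
  refine ge_of_tendsto hlim ?_
  filter_upwards [self_mem_nhdsWithin] with ε hε
  exact main ε hε

end

section

open MeasureTheory Filter Topology ProbabilityTheory

section
variable {I : Type*} {Ω : Type*} [MeasurableSpace Ω]
  {μ : Measure Ω} {η : ℝ → Ω → I → Bool}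

/-- the trajectory of the bit `x` along finitely many times -/
def tr (η : ℝ → Ω → I → Bool) {n : ℕ} (t : Fin (n + 1) → ℝ) (x : I) (w : Ω) :
    Fin (n + 1) → Bool := fun i => η (t i) w x

lemma measurable_tr (hη : IsDynamicalPercolation μ η) {n : ℕ} {t : Fin (n + 1) → ℝ}
    (h0 : 0 ≤ t 0) (ht : Monotone t) (x : I) : Measurable (tr η t x) := by
  unfold tr
  rw [measurable_pi_iff]
  intro i
  exact (measurable_pi_apply x).comp (hη.measurable _ (h0.trans (ht (Fin.zero_le i))))

/-- the weight of a trajectory of one bit -/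
noncomputable def trw {n : ℕ} (t : Fin (n + 1) → ℝ) (a : Fin (n + 1) → Bool) : ℝ :=
  (1 / 2) * ∏ i : Fin n, ptrans (t i.succ - t i.castSucc) (a i.castSucc) (a i.succ)

lemma trw_nonneg {n : ℕ} {t : Fin (n + 1) → ℝ} (ht : Monotone t) (a : Fin (n + 1) → Bool) :
    0 ≤ trw t a :=
  mul_nonneg (by norm_num) (Finset.prod_nonneg fun i _ =>
    ptrans_nonneg (sub_nonneg.2 (ht (Fin.castSucc_lt_succ (i := i)).le)) _ _)

lemma measure_tr_joint (hη : IsDynamicalPercolation μ η) {n : ℕ} {t : Fin (n + 1) → ℝ}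
    (h0 : 0 ≤ t 0) (ht : Monotone t) (F : Finset I) (a : I → Fin (n + 1) → Bool) :
    μ {w | ∀ x ∈ F, tr η t x w = a x} = ∏ x ∈ F, ENNReal.ofReal (trw t (a x)) := by
  rw [← ENNReal.ofReal_prod_of_nonneg (fun x _ => trw_nonneg ht (a x))]
  refine Eq.trans ?_ (hη.fdd F n t a h0 ht)
  congr 1
  ext w
  simp only [Set.mem_ofPred_eq]
  exact forall₂_congr fun x _ => funext_iff

lemma iIndepFun_tr [IsProbabilityMeasure μ] (hη : IsDynamicalPercolation μ η) {n : ℕ}
    {t : Fin (n + 1) → ℝ} (h0 : 0 ≤ t 0) (ht : Monotone t) :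
    iIndepFun (fun x => tr η t x) μ := by
  classical
  rw [iIndepFun_iff_finset]
  intro s
  have hme : ∀ i : s, AEMeasurable (s.restrict (fun x => tr η t x) i) μ :=
    fun i => (measurable_tr hη h0 ht i.1).aemeasurable
  refine (iIndepFun_iff_map_fun_eq_pi_map hme).2 ?_
  have hm : Measurable fun w (i : s) => s.restrict (fun x => tr η t x) i w :=
    measurable_pi_lambda _ fun i => measurable_tr hη h0 ht i.1
  apply Measure.ext_of_singleton
  intro α
  rw [Measure.map_apply hm (measurableSet_singleton α)]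
  have hpi : ({α} : Set (∀ _ : s, Fin (n + 1) → Bool)) = Set.univ.pi fun i => {α i} := by
    rw [Set.univ_pi_singleton]
  rw [hpi, Measure.pi_pi]
  set a : I → Fin (n + 1) → Bool := fun x => if h : x ∈ s then α ⟨x, h⟩ else fun _ => false
    with ha
  have h1 := measure_tr_joint hη h0 ht s a
  have h2 : ((fun w (i : s) => s.restrict (fun x => tr η t x) i w) ⁻¹'
      (Set.univ.pi fun i => {α i})) = {w | ∀ x ∈ s, tr η t x w = a x} := by
    ext w
    simp only [Set.mem_preimage, Set.mem_pi, Set.mem_univ, true_implies, Set.mem_singleton_iff,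
      Set.mem_ofPred_eq, Finset.restrict]
    constructor
    · intro h x hx
      rw [ha]
      simp only [hx, dif_pos]
      exact h ⟨x, hx⟩
    · intro h i
      have := h i.1 i.2
      rw [this, ha]
      simp
  rw [h2, h1, ← Finset.prod_coe_sort s]
  apply Finset.prod_congr rfl
  intro i _
  have h4 : Measurable (s.restrict (fun x => tr η t x) i) := measurable_tr hη h0 ht i.1
  rw [Measure.map_apply h4 (measurableSet_singleton _)]
  have h3 := measure_tr_joint hη h0 ht {i.1} a
  rw [Finset.prod_singleton] at h3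
  rw [← h3]
  congr 1
  ext w
  simp [ha, Finset.restrict]

end

end

section

open MeasureTheory Filter Topology ProbabilityTheory

section
variable {I : Type*} {Ω : Type*} [MeasurableSpace Ω]
  {μ : Measure Ω} {η : ℝ → Ω → I → Bool}

/-- a bit changes between two times -/
lemma measure_change (hη : IsDynamicalPercolation μ η) (x : I) {s t : ℝ} (hs : 0 ≤ s)
    (hst : s ≤ t) : μ {w | η s w x ≠ η t w x} ≤ ENNReal.ofReal ((t - s) / 2) := by
  have h1 : ∀ b : Bool, μ {w | η s w x = b ∧ η t w x = !b} =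
      ENNReal.ofReal ((1 / 2) * ((1 - Real.exp (-(t - s))) / 2)) := by
    intro b
    have hmono : Monotone (![s, t] : Fin 2 → ℝ) := by
      intro i j hij
      fin_cases i <;> fin_cases j <;> simp_all
    have h2 := hη.fdd {x} 1 ![s, t] (fun _ => ![b, !b]) hs hmono
    have h3 : {w | η s w x = b ∧ η t w x = !b} =
        {w | ∀ y ∈ ({x} : Finset I), ∀ i : Fin (1 + 1), η (![s, t] i) w y = ![b, !b] i} := by
      ext w
      simp only [Set.mem_ofPred_eq, Finset.mem_singleton, forall_eq]
      constructor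
      · rintro ⟨h, h'⟩ i
        fin_cases i
        · exact h
        · exact h'
      · intro h
        exact ⟨h 0, h 1⟩
    rw [h3, h2, Finset.prod_singleton]
    simp
  have h4 : {w | η s w x ≠ η t w x} ⊆
      {w | η s w x = true ∧ η t w x = !true} ∪ {w | η s w x = false ∧ η t w x = !false} := by
    intro w hw
    simp only [Set.mem_ofPred_eq] at hw
    simp only [Set.mem_union, Set.mem_ofPred_eq]
    revert hw
    cases η s w x <;> cases η t w x <;> simp
  refine (measure_mono h4).trans ((measure_union_le _ _).trans ?_)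
  rw [h1, h1]
  have h5 : 1 - Real.exp (-(t - s)) ≤ t - s := by
    have := Real.add_one_le_exp (-(t - s))
    linarith
  have h6 : 0 ≤ 1 - Real.exp (-(t - s)) := by
    have : Real.exp (-(t - s)) ≤ 1 := Real.exp_le_one_iff.2 (by linarith)
    linarith
  rw [← ENNReal.ofReal_add (by positivity) (by positivity)]
  exact ENNReal.ofReal_le_ofReal (by linarith)

/-- the trajectory is not constant -/
lemma measure_nonconst (hη : IsDynamicalPercolation μ η) (x : I) {n : ℕ}
    {t : Fin (n + 1) → ℝ} (h0 : 0 ≤ t 0) (ht : Monotone t) :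
    μ {w | ∃ j, tr η t x w j ≠ tr η t x w 0} ≤ ENNReal.ofReal ((t (Fin.last n) - t 0) / 2) := by
  have h1 : {w | ∃ j, tr η t x w j ≠ tr η t x w 0} ⊆
      ⋃ i : Fin n, {w | η (t i.castSucc) w x ≠ η (t i.succ) w x} := by
    intro w hw
    by_contra hcon
    simp only [Set.mem_iUnion, Set.mem_ofPred_eq, not_exists, not_not] at hcon
    obtain ⟨j, hj⟩ := hw
    apply hj
    have h2 : ∀ j : Fin (n + 1), tr η t x w j = tr η t x w 0 := by
      intro j
      induction j using Fin.induction with
      | zero => rfl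
      | succ i ih =>
        rw [← ih]
        exact (hcon i).symm
    exact h2 j
  refine (measure_mono h1).trans ((measure_iUnion_fintype_le _ _).trans ?_)
  have h3 : ∀ i : Fin n, μ {w | η (t i.castSucc) w x ≠ η (t i.succ) w x} ≤
      ENNReal.ofReal ((t i.succ - t i.castSucc) / 2) := fun i =>
    measure_change hη x (h0.trans (ht (Fin.zero_le _))) (ht (Fin.castSucc_lt_succ (i := i)).le)
  refine (Finset.sum_le_sum fun i _ => h3 i).trans ?_
  rw [← ENNReal.ofReal_sum_of_nonneg]
  · apply ENNReal.ofReal_le_ofReal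
    rw [← Finset.sum_div]
    apply div_le_div_of_nonneg_right _ (by norm_num)
    apply le_of_eq
    have : ∀ (n : ℕ) (t : Fin (n + 1) → ℝ),
        ∑ i : Fin n, (t i.succ - t i.castSucc) = t (Fin.last n) - t 0 := by
      intro n
      induction n with
      | zero => intro t; simp
      | succ k ih =>
        intro t
        rw [Fin.sum_univ_castSucc]
        have := ih (fun i => t i.castSucc)
        simp only [Fin.succ_last]
        have h5 : ∑ i : Fin k, (t i.castSucc.succ - t i.castSucc.castSucc) =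
          t (Fin.last k).castSucc - t 0 := this
        rw [h5]
        ring
    exact this n t
  · intro i _
    have := ht (Fin.castSucc_lt_succ (i := i)).le
    linarith

/-- the dyadic grid of `[s, s + h]` -/
noncomputable def tm (s h : ℝ) (m : ℕ) : Fin (2 ^ m + 1) → ℝ := fun i => s + (i : ℕ) * h / 2 ^ m

lemma tm_zero (s h : ℝ) (m : ℕ) : tm s h m 0 = s := by simp [tm]

lemma tm_last (s h : ℝ) (m : ℕ) : tm s h m (Fin.last _) = s + h := by
  simp [tm]

lemma tm_mono {s h : ℝ} (hh : 0 ≤ h) (m : ℕ) : Monotone (tm s h m) := by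
  intro i j hij
  unfold tm
  have h1 : ((i : ℕ) : ℝ) ≤ (j : ℕ) := by exact_mod_cast hij
  gcongr

/-- the bit `x` is not constant along the grid -/
def nc (η : ℝ → Ω → I → Bool) (x : I) (s h : ℝ) (m : ℕ) : Set Ω :=
  tr η (tm s h m) x ⁻¹' {a | ∃ j, a j ≠ a 0}

lemma measure_nc_le (hη : IsDynamicalPercolation μ η) (x : I) {s h : ℝ} (hs : 0 ≤ s)
    (hh : 0 ≤ h) (m : ℕ) : μ (nc η x s h m) ≤ ENNReal.ofReal (h / 2) := by
  have := measure_nonconst hη x (t := tm s h m) (by rw [tm_zero]; exact hs) (tm_mono hh m)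
  rw [tm_zero, tm_last] at this
  have h2 : s + h - s = h := by ring
  rw [h2] at this
  exact this

lemma measurableSet_nc (hη : IsDynamicalPercolation μ η) (x : I) {s h : ℝ} (hs : 0 ≤ s)
    (hh : 0 ≤ h) (m : ℕ) : MeasurableSet (nc η x s h m) :=
  measurable_tr hη (by rw [tm_zero]; exact hs) (tm_mono hh m) x (Set.to_countable _).measurableSet

omit [MeasurableSpace Ω] in
lemma mem_nc {x : I} {s h : ℝ} {m : ℕ} {w : Ω} : w ∈ nc η x s h m ↔
    ∃ j : ℕ, j ≤ 2 ^ m ∧ η (s + j * h / 2 ^ m) w x ≠ η s w x := by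
  unfold nc tr tm
  simp only [Set.mem_preimage, Set.mem_ofPred_eq, Fin.val_zero, Nat.cast_zero, zero_mul,
    zero_div, add_zero]
  constructor
  · rintro ⟨j, hj⟩
    exact ⟨j, Nat.lt_succ_iff.1 j.2, hj⟩
  · rintro ⟨j, hj, h⟩
    exact ⟨⟨j, Nat.lt_succ_iff.2 hj⟩, h⟩

omit [MeasurableSpace Ω] in
lemma nc_mono (x : I) (s h : ℝ) : Monotone (nc η x s h) := by
  apply monotone_nat_of_le_succ
  intro m w hw
  rw [mem_nc] at hw ⊢
  obtain ⟨j, hj, hne⟩ := hw
  refine ⟨2 * j, by rw [pow_succ]; omega, ?_⟩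
  have : s + ((2 * j : ℕ) : ℝ) * h / 2 ^ (m + 1) = s + j * h / 2 ^ m := by
    push_cast
    rw [pow_succ]
    field_simp
  rw [this]; exact hne

omit [MeasurableSpace Ω] in
lemma nc_of_cadlag {w : Ω} (hw : IsCadlag fun t => η t w) {x : I} {s h r : ℝ} (hs : 0 ≤ s)
    (hh : 0 < h) (hr : s ≤ r) (hr' : r ≤ s + h) (hne : η r w x ≠ η s w x) :
    ∃ m, w ∈ nc η x s h m := by
  rcases eq_or_lt_of_le hr' with heq | hlt
  · refine ⟨0, ?_⟩
    rw [mem_nc]
    refine ⟨1, by norm_num, ?_⟩
    have : s + ((1 : ℕ) : ℝ) * h / 2 ^ 0 = r := by rw [heq]; norm_num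
    rw [this]; exact hne
  · have h1 : ∀ᶠ u in 𝓝[>] r, η u w x = η r w x := (hw x).1 r (hs.trans hr)
    rw [eventually_nhdsWithin_iff, Metric.eventually_nhds_iff] at h1
    obtain ⟨ε, hε, h2⟩ := h1
    have hδ : 0 < min ε (s + h - r) := lt_min hε (by linarith)
    obtain ⟨m, hm⟩ := exists_pow_lt_of_lt_one (div_pos hδ hh) (by norm_num : (1 / 2 : ℝ) < 1)
    have hm1 : h * (1 / 2 : ℝ) ^ m < min ε (s + h - r) := by
      rw [lt_div_iff₀ hh] at hm
      linarith
    have hpos : (0 : ℝ) < 2 ^ m := by positivity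
    have h12 : (1 / 2 : ℝ) ^ m * 2 ^ m = 1 := by rw [← mul_pow]; norm_num
    set q : ℝ := (r - s) * 2 ^ m / h with hq
    have hq0 : 0 ≤ q := by
      have : 0 ≤ r - s := by linarith
      positivity
    set i : ℕ := ⌊q⌋₊ + 1 with hi
    have hi1 : q < i := by
      rw [hi]; push_cast; exact Nat.lt_floor_add_one _
    have hi2 : (i : ℝ) ≤ q + 1 := by
      rw [hi]; push_cast
      have := Nat.floor_le hq0
      linarith
    have e1 : r < s + i * h / 2 ^ m := by
      have : r - s < i * h / 2 ^ m := by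
        rw [lt_div_iff₀ hpos]
        rw [hq, div_lt_iff₀ hh] at hi1
        exact hi1
      linarith
    have e2 : s + i * h / 2 ^ m ≤ r + h * (1 / 2) ^ m := by
      have : i * h / 2 ^ m ≤ (r - s) + h * (1 / 2) ^ m := by
        rw [div_le_iff₀ hpos, add_mul]
        have h3 : h * (1 / 2 : ℝ) ^ m * 2 ^ m = h := by rw [mul_assoc, h12, mul_one]
        rw [h3]
        have h4 : (i : ℝ) * h ≤ (q + 1) * h := mul_le_mul_of_nonneg_right hi2 hh.le
        have h5 : q * h = (r - s) * 2 ^ m := by
          rw [hq]; field_simp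
        nlinarith
      linarith
    refine ⟨m, ?_⟩
    rw [mem_nc]
    refine ⟨i, ?_, ?_⟩
    · have h3 : s + i * h / 2 ^ m < s + h := by
        have := min_le_right ε (s + h - r)
        linarith
      have h4 : (i : ℝ) * h / 2 ^ m < h := by linarith
      rw [div_lt_iff₀ hpos] at h4
      have h5 : (i : ℝ) < 2 ^ m := by
        by_contra hcon
        push Not at hcon
        have := mul_le_mul_of_nonneg_left hcon hh.le
        linarith
      have : (i : ℝ) < ((2 ^ m : ℕ) : ℝ) := by push_cast; exact h5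
      exact (by exact_mod_cast this : i < 2 ^ m).le
    · have h6 : η (s + i * h / 2 ^ m) w x = η r w x := by
        apply h2 _ e1
        rw [Real.dist_eq, abs_of_pos (by linarith)]
        have := min_le_left ε (s + h - r)
        linarith
      rw [h6]; exact hne

variable [IsProbabilityMeasure μ]

lemma measure_nc_inter (hη : IsDynamicalPercolation μ η) {x y : I} (hxy : x ≠ y) {s h : ℝ}
    (hs : 0 ≤ s) (hh : 0 ≤ h) :
    μ ((⋃ m, nc η x s h m) ∩ ⋃ m, nc η y s h m) ≤
      ENNReal.ofReal (h / 2) * ENNReal.ofReal (h / 2) := by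
  rw [← Set.iUnion_inter_of_monotone (nc_mono x s h) (nc_mono y s h)]
  rw [Monotone.measure_iUnion (fun i j hij => Set.inter_subset_inter (nc_mono x s h hij)
    (nc_mono y s h hij))]
  apply iSup_le
  intro m
  have hind := (iIndepFun_tr hη (t := tm s h m) (by rw [tm_zero]; exact hs)
    (tm_mono hh m)).indepFun hxy
  have := hind.measure_inter_preimage_eq_mul {a | ∃ j, a j ≠ a 0} {a | ∃ j, a j ≠ a 0}
    (Set.to_countable _).measurableSet (Set.to_countable _).measurableSet
  unfold nc
  rw [this]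
  exact mul_le_mul' (measure_nc_le hη x hs hh m) (measure_nc_le hη y hs hh m)

lemma measure_nc_cyl [DecidableEq I] (hη : IsDynamicalPercolation μ η) {x : I} {Λ : Finset I}
    (hx : x ∉ Λ) {D : (I → Bool) → Prop} (hD : DepOn Λ D) {s h : ℝ}
    (hs : 0 ≤ s) (hh : 0 ≤ h) :
    μ ((⋃ m, nc η x s h m) ∩ {w | D (η s w)}) ≤
      ENNReal.ofReal (h / 2) * μ {w | D (η s w)} := by
  rw [Set.iUnion_inter]
  rw [Monotone.measure_iUnion (fun i j hij => Set.inter_subset_inter_left _ (nc_mono x s h hij))]
  apply iSup_le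
  intro m
  have h0 : 0 ≤ tm s h m 0 := by rw [tm_zero]; exact hs
  have hind := (iIndepFun_tr hη (t := tm s h m) h0 (tm_mono hh m)).indepFun_finset {x} Λ
    (by simpa using hx) (fun i => measurable_tr hη h0 (tm_mono hh m) i)
  have h1 := hind.measure_inter_preimage_eq_mul
    {α | ∃ j, α ⟨x, by simp⟩ j ≠ α ⟨x, by simp⟩ 0}
    {β | D (ext Λ (fun i => β i 0))}
    (Set.to_countable _).measurableSet (Set.to_countable _).measurableSet
  have h2 : ((fun a (i : Λ) => tr η (tm s h m) i a) ⁻¹' {β | D (ext Λ (fun i => β i 0))}) =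
      {w | D (η s w)} := by
    ext w
    simp only [Set.mem_preimage, Set.mem_ofPred_eq]
    have : D (ext Λ fun i => tr η (tm s h m) i w 0) = D (η s w) := by
      apply hD
      intro y hy
      simp only [ext, hy, dif_pos, tr, tm_zero]
    rw [this]
  have h3 : ((fun a (i : ({x} : Finset I)) => tr η (tm s h m) i a) ⁻¹'
      {α | ∃ j, α ⟨x, by simp⟩ j ≠ α ⟨x, by simp⟩ 0}) = nc η x s h m := rfl
  rw [h2, h3] at h1
  rw [h1]
  exact mul_le_mul_left (measure_nc_le hη x hs hh m) _

end

end

section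

open MeasureTheory Filter Topology ProbabilityTheory

section
variable {I : Type*} [DecidableEq I] {Ω : Type*} [MeasurableSpace Ω]
  {μ : Measure Ω} [IsProbabilityMeasure μ] {η : ℝ → Ω → I → Bool}

instance : IsProbabilityMeasure (fairCoins I) := by
  unfold fairCoins; infer_instance

lemma fair_singleton (b : Bool) : (PMF.uniformOfFintype Bool).toMeasure {b} = 2⁻¹ := by
  rw [PMF.toMeasure_apply_singleton _ _ (measurableSet_singleton b)]
  simp

omit [DecidableEq I] in
lemma fairCoins_flip [DecidableEq I] (x : I) : (fairCoins I).map (flipAt x) = fairCoins I := by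
  have h1 : (flipAt x : (I → Bool) → (I → Bool)) =
      fun ω i => (if i = x then Bool.not else id) (ω i) := by
    funext ω i
    unfold flipAt
    by_cases h : i = x
    · subst h; simp
    · simp [h]
  rw [h1, fairCoins, Measure.infinitePi_map_pi]
  · congr 1
    funext i
    apply Measure.ext_of_singleton
    intro b
    rw [Measure.map_apply (measurable_of_finite _) (measurableSet_singleton b)]
    have : ((if i = x then Bool.not else id) ⁻¹' {b} : Set Bool) =
        {if i = x then !b else b} := by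
      ext c
      by_cases h : i = x
      · simp only [h, if_true, Set.mem_preimage, Set.mem_singleton_iff]
        cases b <;> cases c <;> simp
      · simp [h]
    rw [this, fair_singleton, fair_singleton]
  · intro i; exact measurable_of_finite _

/-- cylinder probabilities of ordinary dynamical percolation -/
lemma measure_cyl (hη : IsDynamicalPercolation μ η) {Λ : Finset I} {C : (I → Bool) → Prop}
    (hC : DepOn Λ C) {t : ℝ} (ht : 0 ≤ t) : μ {w | C (η t w)} = fairCoins I {ω | C ω} := by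
  have hm := measurable_res Λ
  have h1 : (μ.map (η t)).map (res Λ) = (fairCoins I).map (res Λ) := by
    apply Measure.ext_of_singleton
    intro a
    rw [Measure.map_apply hm (measurableSet_singleton a),
      Measure.map_apply hm (measurableSet_singleton a),
      Measure.map_apply (hη.measurable t ht) (hm (measurableSet_singleton a))]
    have h2 := ord_marginal hη Λ ht a
    have h3 := fairCoins_res Λ a
    rw [← h3, measureReal_def, measureReal_def,
      ENNReal.toReal_eq_toReal_iff' (measure_ne_top _ _) (measure_ne_top _ _)] at h2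
    exact h2
  have h2 : (μ.map (η t)).map (res Λ) {a | C (ext Λ a)} =
      (fairCoins I).map (res Λ) {a | C (ext Λ a)} := by rw [h1]
  have hfin : MeasurableSet {a : Λ → Bool | C (ext Λ a)} := (Set.to_countable _).measurableSet
  rw [Measure.map_apply hm hfin, Measure.map_apply hm hfin,
    Measure.map_apply (hη.measurable t ht) (hm hfin)] at h2
  have h3 : res Λ ⁻¹' {a | C (ext Λ a)} = {ω | C ω} := by
    ext ω
    simp only [Set.mem_preimage, Set.mem_ofPred_eq]
    rw [← hC.factor ω]
  rw [h3] at h2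
  exact h2

lemma measure_upd (hη : IsDynamicalPercolation μ η) {Λ : Finset I} {C : (I → Bool) → Prop}
    (hC : DepOn Λ C) (x : I) {t : ℝ} (ht : 0 ≤ t) :
    μ {w | ∃ b, C (Function.update (η t w) x b)} ≤ 2 * fairCoins I {ω | C ω} := by
  have hC2 : DepOn Λ fun ω => C (flipAt x ω) := by
    intro ω ω' h
    apply hC
    intro y hy
    unfold flipAt
    by_cases hyx : y = x
    · subst hyx; simp [h y hy]
    · simp [hyx, h y hy]
  have h1 : {w | ∃ b, C (Function.update (η t w) x b)} ⊆
      {w | C (η t w)} ∪ {w | C (flipAt x (η t w))} := by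
    rintro w ⟨b, hb⟩
    by_cases h : b = η t w x
    · left
      rw [h, Function.update_eq_self] at hb
      exact hb
    · right
      have : b = !(η t w x) := by
        revert h; cases b <;> cases η t w x <;> simp
      rw [this] at hb
      exact hb
  refine (measure_mono h1).trans ((measure_union_le _ _).trans ?_)
  rw [measure_cyl hη hC ht, measure_cyl hη hC2 ht, two_mul]
  apply le_of_eq
  congr 1
  conv_rhs => rw [← fairCoins_flip x]
  rw [Measure.map_apply]
  · rfl
  · apply measurable_pi_lambda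
    intro i
    unfold flipAt
    by_cases h : i = x
    · subst h
      simp only [Function.update_self]
      exact (measurable_of_finite Bool.not).comp (measurable_pi_apply i)
    · simp only [ne_eq, h, not_false_eq_true, Function.update_of_ne]
      exact measurable_pi_apply i
  · have : Measurable C := hC.measurable
    exact this (measurableSet_singleton True) |>.congr (by ext; simp)

end

end

section

open MeasureTheory Filter Topology ProbabilityTheory

section
variable {I : Type*} [DecidableEq I] {Ω : Type*} [MeasurableSpace Ω]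
  {μ : Measure Ω} [IsProbabilityMeasure μ] {η : ℝ → Ω → I → Bool}

/-- the bit `x` jumps at a time at which the left limit is in `K` -/
def bad (η : ℝ → Ω → I → Bool) (K : Set (I → Bool)) (T : ℝ) (x : I) : Set Ω :=
  {w | IsCadlag (fun t => η t w) ∧ ∃ t, 0 < t ∧ t ≤ T ∧ ∃ κ ∈ K,
    (∀ y, ∀ᶠ s in 𝓝[<] t, η s w y = κ y) ∧ η t w x ≠ κ x}

omit [MeasurableSpace Ω] in
lemma bad_subset {K : Set (I → Bool)} {C : (I → Bool) → Prop} {Λ : Finset I}
    (hC : DepOn Λ C) (hKC : ∀ κ ∈ K, C κ) {T : ℝ} (hT : 0 < T) {N : ℕ} (hN : 0 < N) (x : I) :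
    bad η K T x ⊆ ⋃ i : Fin N,
      ((⋃ y ∈ Λ.erase x, ((⋃ m, nc η x ((i : ℕ) * (T / N)) (T / N) m) ∩
          ⋃ m, nc η y ((i : ℕ) * (T / N)) (T / N) m)) ∪
        ((⋃ m, nc η x ((i : ℕ) * (T / N)) (T / N) m) ∩
          {w | ∃ b, C (Function.update (η ((i : ℕ) * (T / N)) w) x b)})) := by
  rintro w ⟨hw, t, ht0, htT, κ, hκ, hlim, hne⟩
  have hN' : (0 : ℝ) < N := by exact_mod_cast hN
  set h : ℝ := T / N with hh
  have hh0 : 0 < h := by positivity
  have hNh : N * h = T := by rw [hh]; field_simp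
  have hq : 0 < t / h := by positivity
  obtain ⟨i, hi⟩ : ∃ i, ⌈t / h⌉₊ = i + 1 :=
    Nat.exists_eq_succ_of_ne_zero (Nat.ceil_pos.2 hq).ne'
  have h1 : (i : ℝ) < t / h := Nat.lt_ceil.1 (by omega)
  have h2 : t / h ≤ (i : ℝ) + 1 := by
    have := Nat.le_ceil (t / h)
    rw [hi] at this
    exact_mod_cast this
  rw [lt_div_iff₀ hh0] at h1
  rw [div_le_iff₀ hh0] at h2
  have hiN : i < N := by
    have : t / h ≤ N := by rw [div_le_iff₀ hh0, hNh]; exact htT
    have := Nat.ceil_le.2 this
    omega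
  have h2' : t ≤ i * h + h := by linarith
  have hs0 : 0 ≤ (i : ℝ) * h := by positivity
  -- a time just before `t`
  have h3 : ∀ᶠ s in 𝓝[<] t, ∀ y ∈ insert x Λ, η s w y = κ y := by
    rw [Filter.eventually_all_finset]
    intro y _
    exact hlim y
  have h4 : ∀ᶠ s in 𝓝[<] t, s ∈ Set.Ioo ((i : ℝ) * h) t := Ioo_mem_nhdsLT h1
  obtain ⟨s, hs1, hs2⟩ := (h3.and h4).exists
  have hx : w ∈ ⋃ m, nc η x ((i : ℕ) * h) h m := by
    rw [Set.mem_iUnion]
    by_cases hc : η ((i : ℕ) * h) w x = κ x
    · exact nc_of_cadlag hw hs0 hh0 h1.le h2' (by rw [hc]; exact hne)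
    · apply nc_of_cadlag hw hs0 hh0 hs2.1.le (hs2.2.le.trans h2')
      rw [hs1 x (Finset.mem_insert_self x Λ)]
      exact fun h => hc h.symm
  rw [Set.mem_iUnion]
  refine ⟨⟨i, hiN⟩, ?_⟩
  by_cases hall : ∀ y ∈ Λ.erase x, η ((i : ℕ) * h) w y = κ y
  · right
    refine ⟨hx, κ x, ?_⟩
    have hκC := hKC κ hκ
    rw [hC (Function.update (η ((i : ℕ) * h) w) x (κ x)) κ]
    · exact hκC
    · intro y hy
      by_cases hyx : y = x
      · subst hyx; simp
      · rw [Function.update_of_ne hyx]
        exact hall y (Finset.mem_erase.2 ⟨hyx, hy⟩)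
  · left
    push Not at hall
    obtain ⟨y, hy, hyne⟩ := hall
    rw [Set.mem_iUnion₂]
    refine ⟨y, hy, hx, ?_⟩
    rw [Set.mem_iUnion]
    apply nc_of_cadlag hw hs0 hh0 hs2.1.le (hs2.2.le.trans h2')
    rw [hs1 y (Finset.mem_insert_of_mem (Finset.mem_of_mem_erase hy))]
    exact fun h => hyne h.symm

lemma measure_bad_le (hη : IsDynamicalPercolation μ η) {K : Set (I → Bool)}
    {C : (I → Bool) → Prop} {Λ : Finset I}
    (hC : DepOn Λ C) (hKC : ∀ κ ∈ K, C κ) {T : ℝ} (hT : 0 < T) {N : ℕ} (hN : 0 < N) (x : I) :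
    μ (bad η K T x) ≤ ENNReal.ofReal
      (Λ.card * T ^ 2 / (4 * N) + T * (fairCoins I).real {ω | C ω}) := by
  have hN' : (0 : ℝ) < N := by exact_mod_cast hN
  set h : ℝ := T / N with hh
  have hh0 : 0 < h := by positivity
  set p : ℝ := (fairCoins I).real {ω | C ω} with hp
  have hp0 : 0 ≤ p := measureReal_nonneg
  have hpe : fairCoins I {ω | C ω} = ENNReal.ofReal p := by
    rw [hp, measureReal_def, ENNReal.ofReal_toReal (measure_ne_top _ _)]
  refine (measure_mono (bad_subset hC hKC hT hN x)).trans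
    ((measure_iUnion_fintype_le _ _).trans ?_)
  have h1 : ∀ i : Fin N, μ
      ((⋃ y ∈ Λ.erase x, ((⋃ m, nc η x ((i : ℕ) * h) h m) ∩
          ⋃ m, nc η y ((i : ℕ) * h) h m)) ∪
        ((⋃ m, nc η x ((i : ℕ) * h) h m) ∩
          {w | ∃ b, C (Function.update (η ((i : ℕ) * h) w) x b)})) ≤
      ENNReal.ofReal (Λ.card * (h / 2 * (h / 2)) + h / 2 * (2 * p)) := by
    intro i
    have hs0 : 0 ≤ ((i : ℕ) : ℝ) * h := by positivity
    refine (measure_union_le _ _).trans ?_
    rw [ENNReal.ofReal_add (by positivity) (by positivity)]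
    apply add_le_add
    · refine (measure_biUnion_finset_le _ _).trans ?_
      calc ∑ y ∈ Λ.erase x, μ ((⋃ m, nc η x ((i : ℕ) * h) h m) ∩
              ⋃ m, nc η y ((i : ℕ) * h) h m)
          ≤ ∑ y ∈ Λ.erase x, ENNReal.ofReal (h / 2) * ENNReal.ofReal (h / 2) :=
            Finset.sum_le_sum fun y hy =>
              measure_nc_inter hη (Finset.ne_of_mem_erase hy).symm hs0 hh0.le
        _ = (Λ.erase x).card * (ENNReal.ofReal (h / 2) * ENNReal.ofReal (h / 2)) := by
            rw [Finset.sum_const, nsmul_eq_mul]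
        _ ≤ Λ.card * (ENNReal.ofReal (h / 2) * ENNReal.ofReal (h / 2)) := by
            gcongr
            exact Finset.erase_subset _ _
        _ = ENNReal.ofReal (Λ.card * (h / 2 * (h / 2))) := by
            rw [ENNReal.ofReal_mul (by positivity), ENNReal.ofReal_mul (by positivity),
              ENNReal.ofReal_natCast]
    · have hD : DepOn (Λ.erase x) fun ω : I → Bool => ∃ b, C (Function.update ω x b) := by
        intro ω ω' hω
        have : ∀ b, C (Function.update ω x b) = C (Function.update ω' x b) := by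
          intro b
          apply hC
          intro y hy
          by_cases hyx : y = x
          · subst hyx; simp
          · rw [Function.update_of_ne hyx, Function.update_of_ne hyx]
            exact hω y (Finset.mem_erase.2 ⟨hyx, hy⟩)
        simp only [this]
      refine (measure_nc_cyl hη (Finset.notMem_erase x Λ) hD hs0 hh0.le).trans ?_
      have h2 := measure_upd hη hC x hs0
      rw [hpe] at h2
      rw [ENNReal.ofReal_mul (by positivity), ENNReal.ofReal_mul (by norm_num : (0 : ℝ) ≤ 2)]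
      have h3 : ENNReal.ofReal 2 = 2 := by norm_num
      rw [h3]
      exact mul_le_mul' le_rfl h2
  refine (Finset.sum_le_sum fun i _ => h1 i).trans ?_
  rw [Finset.sum_const, Finset.card_univ, Fintype.card_fin, nsmul_eq_mul,
    ← ENNReal.ofReal_natCast N, ← ENNReal.ofReal_mul (by positivity)]
  apply ENNReal.ofReal_le_ofReal
  apply le_of_eq
  rw [hh]
  field_simp
  ring

lemma measure_bad_zero (hη : IsDynamicalPercolation μ η) {K : Set (I → Bool)}
    {C : ℕ → (I → Bool) → Prop} {Λ : ℕ → Finset I}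
    (hC : ∀ n, DepOn (Λ n) (C n)) (hKC : ∀ n, ∀ κ ∈ K, C n κ)
    (hlim : Tendsto (fun n => (fairCoins I).real {ω | C n ω}) atTop (𝓝 0))
    {T : ℝ} (hT : 0 < T) (x : I) : μ (bad η K T x) = 0 := by
  have main : ∀ ε : ℝ, 0 < ε → μ (bad η K T x) ≤ ENNReal.ofReal ε := by
    intro ε hε
    have h1 : ∀ᶠ n in atTop, (fairCoins I).real {ω | C n ω} < ε / (2 * T) :=
      hlim.eventually_lt_const (by positivity)
    obtain ⟨n, hn⟩ := h1.exists
    obtain ⟨N, hN⟩ := exists_nat_gt (max 1 ((Λ n).card * T ^ 2 / (2 * ε)))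
    have hN1 : (1 : ℝ) < N := lt_of_le_of_lt (le_max_left _ _) hN
    have hN2 : ((Λ n).card : ℝ) * T ^ 2 / (2 * ε) < N := lt_of_le_of_lt (le_max_right _ _) hN
    have hN0 : 0 < N := by
      have : (0 : ℝ) < N := by linarith
      exact_mod_cast this
    refine (measure_bad_le hη (hC n) (hKC n) hT hN0 x).trans (ENNReal.ofReal_le_ofReal ?_)
    have hN' : (0 : ℝ) < N := by linarith
    have e1 : ((Λ n).card : ℝ) * T ^ 2 / (4 * N) ≤ ε / 2 := by
      rw [div_lt_iff₀ (by positivity)] at hN2
      rw [div_le_iff₀ (by positivity)]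
      nlinarith
    have e2 : T * (fairCoins I).real {ω | C n ω} ≤ ε / 2 := by
      rw [lt_div_iff₀ (by positivity)] at hn
      nlinarith
    linarith
  by_contra hne
  have hpos : 0 < μ (bad η K T x) := pos_iff_ne_zero.2 hne
  have hfin : μ (bad η K T x) ≠ ⊤ := measure_ne_top _ _
  have h1 := main ((μ (bad η K T x)).toReal / 2) (by
    have := ENNReal.toReal_pos hne hfin
    linarith)
  have h2 : 0 < (μ (bad η K T x)).toReal := ENNReal.toReal_pos hne hfin
  have h3 := ENNReal.toReal_mono ENNReal.ofReal_ne_top h1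
  rw [ENNReal.toReal_ofReal (by positivity)] at h3
  linarith

end

end

section

open MeasureTheory Filter Topology ProbabilityTheory

section
variable {I : Type*} [DecidableEq I] {Ω : Type*} [MeasurableSpace Ω]
  {μ : Measure Ω} [IsProbabilityMeasure μ] {η : ℝ → Ω → I → Bool}

omit [MeasurableSpace Ω] [DecidableEq I] in
/-- a limit of times at which the path is in `C n` is a time at which it is in `K` -/
lemma mem_of_limits {w : Ω} (hw : IsCadlag fun t => η t w) {K : Set (I → Bool)}
    {C : ℕ → (I → Bool) → Prop} {Λ : ℕ → Finset I} (hC : ∀ n, DepOn (Λ n) (C n))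
    (hanti : ∀ n m, n ≤ m → ∀ ω, C m ω → C n ω) (hCK : ∀ ω, (∀ n, C n ω) → ω ∈ K)
    {T : ℝ} (hbad : ∀ x, w ∉ bad η K T x)
    (hhit : ∀ n, ∃ t, 0 ≤ t ∧ t ≤ T ∧ C n (η t w)) : ∃ t, 0 ≤ t ∧ η t w ∈ K := by
  choose t ht0 htT hCt using hhit
  set F : Ultrafilter ℕ := hyperfilter ℕ with hF
  have hFle : (F : Filter ℕ) ≤ atTop := Nat.hyperfilter_le_atTop
  obtain ⟨a, ⟨ha0, haT⟩, hlim⟩ := (isCompact_Icc (a := (0 : ℝ)) (b := T)).ultrafilter_le_nhds'
    (F.map t) (by
      rw [Ultrafilter.mem_map]
      exact Filter.Eventually.of_forall (f := (F : Filter ℕ)) fun n => ⟨ht0 n, htT n⟩)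
  have hlim' : Tendsto t F (𝓝 a) := hlim
  by_cases hcase : ∀ᶠ n in (F : Filter ℕ), a ≤ t n
  · refine ⟨a, ha0, hCK _ fun m => ?_⟩
    have h1 : ∀ᶠ s in 𝓝 a, a ≤ s → ∀ x ∈ Λ m, η s w x = η a w x := by
      have h2 : ∀ᶠ s in 𝓝[>] a, ∀ x ∈ Λ m, η s w x = η a w x := by
        rw [Filter.eventually_all_finset]
        intro x _
        exact (hw x).1 a ha0
      rw [eventually_nhdsWithin_iff] at h2
      filter_upwards [h2] with s hs has x hx
      rcases eq_or_lt_of_le has with h | h
      · rw [← h]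
      · exact hs h x hx
    obtain ⟨n, ⟨hn1, hn2⟩, hn3⟩ := (((hlim'.eventually h1).and hcase).and
      (hFle (eventually_ge_atTop m))).exists
    have h3 := hn1 hn2
    have h4 := hanti m n hn3 _ (hCt n)
    rwa [hC m _ _ h3] at h4
  · have hcase' : ∀ᶠ n in (F : Filter ℕ), t n < a := by
      rw [← Ultrafilter.eventually_not] at hcase
      filter_upwards [hcase] with n hn
      exact not_le.1 hn
    have hapos : 0 < a := by
      obtain ⟨n, hn⟩ := hcase'.exists
      exact lt_of_le_of_lt (ht0 n) hn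
    have hleft : ∀ x, ∃ b, ∀ᶠ s in 𝓝[<] a, η s w x = b := fun x => (hw x).2 a hapos
    choose κ hκ using hleft
    have hκK : κ ∈ K := by
      apply hCK
      intro m
      have h1 : ∀ᶠ s in 𝓝 a, s < a → ∀ x ∈ Λ m, η s w x = κ x := by
        have h2 : ∀ᶠ s in 𝓝[<] a, ∀ x ∈ Λ m, η s w x = κ x := by
          rw [Filter.eventually_all_finset]
          intro x _
          exact hκ x
        rw [eventually_nhdsWithin_iff] at h2
        exact h2
      obtain ⟨n, ⟨hn1, hn2⟩, hn3⟩ := (((hlim'.eventually h1).and hcase').and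
        (hFle (eventually_ge_atTop m))).exists
      have h3 := hn1 hn2
      have h4 := hanti m n hn3 _ (hCt n)
      rwa [hC m _ _ h3] at h4
    refine ⟨a, ha0, ?_⟩
    have h5 : η a w = κ := by
      funext x
      by_contra hne
      exact hbad x ⟨hw, a, hapos, haT, κ, hκK, hκ, hne⟩
    rw [h5]; exact hκK

lemma measurableSet_gridHit (hη : IsDynamicalPercolation μ η) {Λ : Finset I}
    {C : (I → Bool) → Prop} (hC : DepOn Λ C) (R m : ℕ) : MeasurableSet (gridHit η C R m) := by
  have : gridHit η C R m = ⋃ i : ℕ, ⋃ _ : i < (R + 1) * 2 ^ m,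
      {w | C (η ((i : ℝ) / 2 ^ m) w)} := by
    ext w; simp [gridHit]
  rw [this]
  apply MeasurableSet.iUnion
  intro i
  apply MeasurableSet.iUnion
  intro _
  have h1 : Measurable C := hC.measurable
  have h2 : Measurable fun w => C (η ((i : ℝ) / 2 ^ m) w) :=
    h1.comp (hη.measurable _ (by positivity))
  exact measurableSet_setOfPred.2 h2

theorem hit_limit [Countable I] (hη : IsDynamicalPercolation μ η) {K : Set (I → Bool)}
    {C : ℕ → (I → Bool) → Prop} {Λ : ℕ → Finset I} (hC : ∀ n, DepOn (Λ n) (C n))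
    (hanti : ∀ n m, n ≤ m → ∀ ω, C m ω → C n ω) (hCK : ∀ ω, (∀ n, C n ω) → ω ∈ K)
    (hKC : ∀ n, ∀ κ ∈ K, C n κ)
    (hlim : Tendsto (fun n => (fairCoins I).real {ω | C n ω}) atTop (𝓝 0)) (R : ℕ) {ε : ENNReal}
    (hε : 0 < ε) (hhit : ∀ n, ε ≤ μ (⋃ m, gridHit η (C n) R m)) :
    0 < μ {w | ∃ t, 0 ≤ t ∧ η t w ∈ K} := by
  set H : ℕ → Set Ω := fun n => ⋃ m, gridHit η (C n) R m with hH
  have hHm : ∀ n, MeasurableSet (H n) := fun n =>
    MeasurableSet.iUnion fun m => measurableSet_gridHit hη (hC n) R m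
  have hHa : Antitone H := by
    intro n m hnm w hw
    simp only [hH, Set.mem_iUnion] at hw ⊢
    obtain ⟨k, i, hi, hCi⟩ := hw
    exact ⟨k, i, hi, hanti n m hnm _ hCi⟩
  have h1 : ε ≤ μ (⋂ n, H n) := by
    have := tendsto_measure_iInter_atTop (μ := μ) (fun n => (hHm n).nullMeasurableSet) hHa
      ⟨0, measure_ne_top _ _⟩
    exact ge_of_tendsto' this fun n => hhit n
  refine lt_of_lt_of_le (lt_of_lt_of_le hε h1) ?_
  apply measure_mono_ae
  have hb : ∀ᵐ w ∂μ, ∀ x, w ∉ bad η K ((R : ℝ) + 1) x := by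
    rw [ae_all_iff]
    intro x
    have := measure_bad_zero hη hC hKC hlim (T := (R : ℝ) + 1) (by positivity) x
    exact measure_eq_zero_iff_ae_notMem.1 this
  filter_upwards [hη.cadlag, hb] with w hw hbw hmem
  apply mem_of_limits hw hC hanti hCK hbw
  intro n
  have := Set.mem_iInter.1 hmem n
  simp only [hH, Set.mem_iUnion] at this
  obtain ⟨m, i, hi, hCi⟩ := this
  refine ⟨(i : ℝ) / 2 ^ m, by positivity, ?_, hCi⟩
  rw [div_le_iff₀ (by positivity)]
  have : ((i : ℕ) : ℝ) < (((R + 1) * 2 ^ m : ℕ) : ℝ) := by exact_mod_cast hi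
  push_cast at this
  exact this.le

end

end

section

open MeasureTheory Filter Topology ProbabilityTheory

section
variable {I : Type*} [DecidableEq I]

/-- the set of configurations which agree on `Λ` with a configuration in `K` -/
def nbhd (K : Set (I → Bool)) (Λ : Finset I) (ω : I → Bool) : Prop :=
  ∃ κ ∈ K, ∀ x ∈ Λ, ω x = κ x

omit [DecidableEq I] in
lemma depOn_nbhd (K : Set (I → Bool)) (Λ : Finset I) : DepOn Λ (nbhd K Λ) := by
  intro ω ω' h
  apply propext
  unfold nbhd
  constructor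
  · rintro ⟨κ, hκ, h1⟩
    exact ⟨κ, hκ, fun x hx => (h x hx).symm.trans (h1 x hx)⟩
  · rintro ⟨κ, hκ, h1⟩
    exact ⟨κ, hκ, fun x hx => (h x hx).trans (h1 x hx)⟩

lemma isOpen_nbhd (K : Set (I → Bool)) (Λ : Finset I) : IsOpen {ω | nbhd K Λ ω} := by
  have h1 : {ω | nbhd K Λ ω} = res Λ ⁻¹' {a | nbhd K Λ (ext Λ a)} := by
    ext ω
    simp only [Set.mem_preimage, Set.mem_ofPred_eq]
    rw [← (depOn_nbhd K Λ).factor ω]
  rw [h1]
  have hc : Continuous (res Λ : (I → Bool) → (Λ → Bool)) := by
    unfold res; fun_prop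
  exact (isOpen_discrete _).preimage hc

omit [DecidableEq I] in
lemma nbhd_limit {K : Set (I → Bool)} (hK : IsClosed K) {Λ : ℕ → Finset I}
    (hΛ : ∀ x, ∃ n, ∀ m, n ≤ m → x ∈ Λ m) (ω : I → Bool) (h : ∀ n, nbhd K (Λ n) ω) : ω ∈ K := by
  choose κ hκ hκe using h
  apply hK.mem_of_tendsto (f := κ) (b := atTop) _ (Eventually.of_forall hκ)
  rw [tendsto_pi_nhds]
  intro x
  obtain ⟨n, hn⟩ := hΛ x
  apply tendsto_const_nhds.congr'
  filter_upwards [eventually_ge_atTop n] with m hm
  exact hκe m x (hn m hm)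

end

/-- Exceptional times for the exclusion dynamics are exceptional times for ordinary dynamical
percolation. -/
theorem result {I Ω Ω' : Type*} [Countable I] [DecidableEq I] [MeasurableSpace Ω]
    [MeasurableSpace Ω'] {P : I → I → ℝ} (hP : IsKernel P)
    {μ : Measure Ω} [IsProbabilityMeasure μ] {X : ℝ → Ω → I → Bool}
    (hX : IsExclusionDynamics P μ X)
    {μ' : Measure Ω'} [IsProbabilityMeasure μ'] {η : ℝ → Ω' → I → Bool}
    (hη : IsDynamicalPercolation μ' η)
    {A : Set (I → Bool)} (hA : MeasurableSet A) (hA0 : fairCoins I A = 0)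
    (h : HasExceptionalTimes μ X A) : HasExceptionalTimes μ' η A := by
  obtain ⟨M₀, hM₀⟩ := hP.bound
  set M : ℝ := max M₀ 0 with hMdef
  have hM0 : 0 ≤ M := le_max_right _ _
  have hM : ∀ x, Summable (P x) ∧ ∑' y, P x y ≤ M := fun x =>
    ⟨(hM₀ x).1, (hM₀ x).2.trans (le_max_left _ _)⟩
  -- a bounded time interval
  obtain ⟨T, hT⟩ : ∃ T : ℕ, μ {w | ∃ t : ℝ, 0 ≤ t ∧ t ≤ T ∧ X t w ∈ A} ≠ 0 := by
    by_contra hcon
    push Not at hcon
    have h1 : μ (⋃ T : ℕ, {w | ∃ t : ℝ, 0 ≤ t ∧ t ≤ T ∧ X t w ∈ A}) = 0 :=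
      measure_iUnion_null hcon
    have h2 : {w | ∃ t : ℝ, 0 ≤ t ∧ X t w ∈ A} ⊆
        ⋃ T : ℕ, {w | ∃ t : ℝ, 0 ≤ t ∧ t ≤ T ∧ X t w ∈ A} := by
      rintro w ⟨t, ht, hAt⟩
      obtain ⟨T, hT⟩ := exists_nat_ge t
      exact Set.mem_iUnion.2 ⟨T, t, ht, hT, hAt⟩
    have h3 : μ {w | ∃ t : ℝ, 0 ≤ t ∧ X t w ∈ A} = 0 := measure_mono_null h2 h1
    unfold HasExceptionalTimes at h
    rw [h3] at h
    exact lt_irrefl _ h
  set c : Set (I → Bool) → ENNReal := fun B => μ {w | ∃ t : ℝ, 0 ≤ t ∧ t ≤ T ∧ X t w ∈ B} with hc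
  have hcmono : ∀ B B', B ⊆ B' → c B ≤ c B' := by
    intro B B' hBB
    apply measure_mono
    rintro w ⟨t, h0, h1, h2⟩
    exact ⟨t, h0, h1, hBB h2⟩
  have hcsup : ∀ B : ℕ → Set (I → Bool), Monotone B → c (⋃ n, B n) = ⨆ n, c (B n) := by
    intro B hB
    have h1 : {w | ∃ t : ℝ, 0 ≤ t ∧ t ≤ T ∧ X t w ∈ ⋃ n, B n} =
        ⋃ n, {w | ∃ t : ℝ, 0 ≤ t ∧ t ≤ T ∧ X t w ∈ B n} := by
      ext w
      simp only [Set.mem_iUnion, Set.mem_ofPred_eq]
      constructor
      · rintro ⟨t, h0, h1, n, h2⟩
        exact ⟨n, t, h0, h1, h2⟩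
      · rintro ⟨n, t, h0, h1, h2⟩
        exact ⟨t, h0, h1, n, h2⟩
    simp only [hc]
    rw [h1]
    apply Monotone.measure_iUnion
    intro n m hnm w hw
    obtain ⟨t, h0, h1, h2⟩ := hw
    exact ⟨t, h0, h1, hB hnm h2⟩
  set δ : ENNReal := c A / 2 with hδ
  have hcA : c A ≠ 0 := hT
  have hcAt : c A ≠ ⊤ := measure_ne_top _ _
  have hδlt : δ < c A := ENNReal.half_lt_self hcA hcAt
  have hδ0 : 0 < δ := ENNReal.half_pos hcA
  have hδt : δ ≠ ⊤ := (hδlt.trans_le le_top).ne
  haveI : PolishSpace (I → Bool) := {}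
  obtain ⟨K, hKA, hKc, hKU⟩ := exists_compact_of_capacity hA.analyticSet c hcmono hcsup hδlt
  have hKcl : IsClosed K := hKc.isClosed
  -- finite volumes
  obtain ⟨f, hf⟩ := Countable.exists_injective_nat I
  set Λ : ℕ → Finset I := fun n => ((Set.finite_Iic n).preimage hf.injOn).toFinset with hΛ
  have hΛmem : ∀ n x, x ∈ Λ n ↔ f x ≤ n := by
    intro n x
    simp [hΛ]
  have hΛex : ∀ x, ∃ n, ∀ m, n ≤ m → x ∈ Λ m := fun x =>
    ⟨f x, fun m hm => (hΛmem m x).2 hm⟩
  set C : ℕ → (I → Bool) → Prop := fun n => nbhd K (Λ n) with hC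
  have hCdep : ∀ n, DepOn (Λ n) (C n) := fun n => depOn_nbhd K (Λ n)
  have hanti : ∀ n m, n ≤ m → ∀ ω, C m ω → C n ω := by
    intro n m hnm ω
    rintro ⟨κ, hκ, h1⟩
    exact ⟨κ, hκ, fun x hx => h1 x ((hΛmem m x).2 (((hΛmem n x).1 hx).trans hnm))⟩
  have hCK : ∀ ω, (∀ n, C n ω) → ω ∈ K := fun ω hω => nbhd_limit hKcl hΛex ω hω
  have hKC : ∀ n, ∀ κ ∈ K, C n κ := fun n κ hκ => ⟨κ, hκ, fun _ _ => rfl⟩
  have hK0 : fairCoins I K = 0 := measure_mono_null hKA hA0
  have hlim : Tendsto (fun n => (fairCoins I).real {ω | C n ω}) atTop (𝓝 0) := by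
    have hmeas : ∀ n, MeasurableSet {ω | C n ω} := by
      intro n
      have h1 : Measurable (C n) := (hCdep n).measurable
      exact measurableSet_setOfPred.2 h1
    have hantiS : Antitone fun n => {ω | C n ω} := fun n m hnm ω hω => hanti n m hnm ω hω
    have h1 := tendsto_measure_iInter_atTop (μ := fairCoins I)
      (fun n => (hmeas n).nullMeasurableSet) hantiS ⟨0, measure_ne_top _ _⟩
    have h2 : ⋂ n, {ω | C n ω} = K := by
      ext ω
      simp only [Set.mem_iInter, Set.mem_ofPred_eq]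
      exact ⟨hCK ω, fun hω n => hKC n ω hω⟩
    rw [h2, hK0] at h1
    have h3 := (ENNReal.tendsto_toReal ENNReal.zero_ne_top).comp h1
    simpa [Measure.real, Function.comp_def] using h3
  -- the comparison
  set E : ℝ := Real.exp ((2 * M + 1) * (T + 1)) * (1 + 4 * M) with hE
  have hE0 : 0 < E := by
    have : 0 < 1 + 4 * M := by linarith
    positivity
  set d : ℝ := δ.toReal with hd
  have hd0 : 0 < d := ENNReal.toReal_pos hδ0.ne' hδt
  obtain ⟨R, hR⟩ := exists_nat_gt (2 * E / d)
  have hhit : ∀ n, ENNReal.ofReal (d / (2 * E)) ≤ μ' (⋃ m, gridHit η (C n) R m) := by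
    intro n
    have h1 := hKU {ω | C n ω} (isOpen_nbhd K (Λ n)) (hKC n)
    have h2 := cylinder_bound hP hM0 hM hX hη (hCdep n) T R
    have h3 : δ < ENNReal.ofReal (Real.exp ((2 * M + 1) * (T + 1)) * ((1 + 4 * M) *
        (μ'.real (⋃ m, gridHit η (C n) R m) + 1 / (1 + (2 * M + 1) * (R + 1))))) :=
      lt_of_lt_of_le h1 h2
    rw [ENNReal.lt_ofReal_iff_toReal_lt hδt, ← mul_assoc] at h3
    set p : ℝ := μ'.real (⋃ m, gridHit η (C n) R m) with hp
    have h4 : E * (1 / (1 + (2 * M + 1) * (R + 1))) ≤ d / 2 := by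
      have hR0 : (0 : ℝ) ≤ R := Nat.cast_nonneg R
      have e1 : (R : ℝ) ≤ 1 + (2 * M + 1) * (R + 1) := by nlinarith
      have e2 : 2 * E < R * d := by rwa [div_lt_iff₀ hd0] at hR
      have e3 : 0 < 1 + (2 * M + 1) * ((R : ℝ) + 1) := by positivity
      rw [mul_one_div, div_le_iff₀ e3]
      nlinarith
    have h5 : d / (2 * E) ≤ p := by
      have e1 : d < E * p + E * (1 / (1 + (2 * M + 1) * (R + 1))) := by
        rw [← mul_add]; exact h3
      rw [div_le_iff₀ (by positivity)]
      nlinarith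
    rw [← ENNReal.ofReal_toReal (measure_ne_top μ' (⋃ m, gridHit η (C n) R m))]
    exact ENNReal.ofReal_le_ofReal h5
  have hfin := hit_limit hη hCdep hanti hCK hKC hlim R
    (ENNReal.ofReal_pos.2 (by positivity : 0 < d / (2 * E))) hhit
  refine lt_of_lt_of_le hfin (measure_mono ?_)
  rintro w ⟨t, ht, hKt⟩
  exact ⟨t, ht, hKA hKt⟩

end

end Pool.Agent.Results.MP_20d613_pr.ExclusionVsOrdinary
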